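import Pool.Agent.H65.DR.Def

/-!
# [DR S Bc] periodic conditions in the box

`Bx k M A = Ia ×ˢ (Ib ×ˢ Ic)`, each factor is an interval `Ioc u (u + A)`. Split the filtered box by the residues `(r, s, t) ∈ range T ^ 3` of `(a, b, c)` modulo `T`
(`Finset.card_eq_sum_card_fiberwise` or `Finset.sum_fiberwise`): by `Per` the condition depends only on the residues, so the number is
`∑_{(r,s,t) good} x_r y_s z_t` with `x_r = #{a ∈ Ioc u (u + A) : a ≡ r [ZMOD T]}`, `|x_r - A/T| ≤ 1` (`Int.Ioc_filter_modEq_card`: `⌊(b - v)/r⌋ - ⌊(a - v)/r⌋`). For `τ = A/T ≥ 1` and `|x - τ|, |y - τ|, |z - τ| ≤ 1`,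
`x, y, z ≥ 0`: `|x y z - τ³| ≤ (τ + 1)³ - τ³ = 3 τ² + 3 τ + 1 ≤ 7 τ²`. Sum over the `cc T R` good classes.
-/

set_option autoImplicit false

namespace H65.DR

open Finset H23.LP H96.DR Pool.Agent.H95.FL

/-- three factors -/
theorem three (τ x y z : ℝ) (hτ : 1 ≤ τ) (hx : |x - τ| ≤ 1) (hy : |y - τ| ≤ 1) (hz : |z - τ| ≤ 1)
    (hx0 : 0 ≤ x) (hy0 : 0 ≤ y) (hz0 : 0 ≤ z) : |x * y * z - τ ^ 3| ≤ 7 * τ ^ 2 := by
  have h1 : x * y * z - τ ^ 3 = (x - τ) * (y * z) + τ * ((y - τ) * z) + τ ^ 2 * (z - τ) := by ring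
  have hy1 : y ≤ τ + 1 := by
    have := (abs_le.1 hy).2
    linarith
  have hz1 : z ≤ τ + 1 := by
    have := (abs_le.1 hz).2
    linarith
  have hyz : y * z ≤ (τ + 1) * (τ + 1) := mul_le_mul hy1 hz1 hz0 (by linarith)
  have a1 : |(x - τ) * (y * z)| ≤ (τ + 1) * (τ + 1) := by
    rw [abs_mul, abs_of_nonneg (mul_nonneg hy0 hz0)]
    calc |x - τ| * (y * z) ≤ 1 * (y * z) := mul_le_mul_of_nonneg_right hx (mul_nonneg hy0 hz0)
      _ ≤ (τ + 1) * (τ + 1) := by linarith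
  have a2 : |τ * ((y - τ) * z)| ≤ τ * (τ + 1) := by
    rw [abs_mul, abs_mul, abs_of_nonneg hz0, abs_of_nonneg (by linarith : (0 : ℝ) ≤ τ)]
    refine mul_le_mul_of_nonneg_left ?_ (by linarith)
    calc |y - τ| * z ≤ 1 * z := mul_le_mul_of_nonneg_right hy hz0
      _ ≤ τ + 1 := by linarith
  have a3 : |τ ^ 2 * (z - τ)| ≤ τ ^ 2 := by
    rw [abs_mul, abs_of_nonneg (sq_nonneg τ)]
    calc τ ^ 2 * |z - τ| ≤ τ ^ 2 * 1 := mul_le_mul_of_nonneg_left hz (sq_nonneg τ)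
      _ = τ ^ 2 := mul_one _
  rw [h1]
  have h2 := abs_add_three ((x - τ) * (y * z)) (τ * ((y - τ) * z)) (τ ^ 2 * (z - τ))
  nlinarith

/-- one coordinate -/
theorem one_mod (u : ℤ) (A T r : ℕ) (hT : 0 < T) :
    |(((Ioc u (u + A)).filter fun a : ℤ => a ≡ r [ZMOD (T : ℤ)]).card : ℝ) - (A : ℝ) / T| ≤ 1 := by
  have hT0 : (0 : ℤ) < T := by exact_mod_cast hT
  have hTq : (0 : ℚ) < T := by exact_mod_cast hT
  have h := Int.Ioc_filter_modEq_card u (u + A) hT0 (r : ℤ)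
  have hq : |(((Ioc u (u + A)).filter fun a : ℤ => a ≡ r [ZMOD (T : ℤ)]).card : ℚ) - (A : ℚ) / T| ≤ 1 := by
    have h2 : (((Ioc u (u + A)).filter fun a : ℤ => a ≡ r [ZMOD (T : ℤ)]).card : ℚ) =
        ((max (⌊((u + A : ℤ) - (r : ℤ) : ℚ) / ((T : ℤ) : ℚ)⌋ - ⌊(u - (r : ℤ) : ℚ) / ((T : ℤ) : ℚ)⌋) 0 : ℤ) : ℚ) := by
      rw [← h]
      simp
    rw [h2]
    have h5 : ((u + A : ℤ) - (r : ℤ) : ℚ) / ((T : ℤ) : ℚ) - (u - (r : ℤ) : ℚ) / ((T : ℤ) : ℚ) = (A : ℚ) / T := by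
      rw [← sub_div]
      push_cast
      congr 1
      ring
    have h6 : (0 : ℚ) ≤ (A : ℚ) / T := by positivity
    have h7 : ⌊(u - (r : ℤ) : ℚ) / ((T : ℤ) : ℚ)⌋ ≤ ⌊((u + A : ℤ) - (r : ℤ) : ℚ) / ((T : ℤ) : ℚ)⌋ :=
      Int.floor_mono (by linarith)
    rw [max_eq_left (by linarith)]
    push_cast
    have h3 := Int.floor_le (((u + A : ℤ) - (r : ℤ) : ℚ) / ((T : ℤ) : ℚ))
    have h3' := Int.lt_floor_add_one (((u + A : ℤ) - (r : ℤ) : ℚ) / ((T : ℤ) : ℚ))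
    have h4 := Int.lt_floor_add_one ((u - (r : ℤ) : ℚ) / ((T : ℤ) : ℚ))
    have h4' := Int.floor_le ((u - (r : ℤ) : ℚ) / ((T : ℤ) : ℚ))
    push_cast at h3 h3' h4 h4' h5
    rw [abs_le]
    constructor <;> linarith
  have h8 : ((|(((Ioc u (u + A)).filter fun a : ℤ => a ≡ r [ZMOD (T : ℤ)]).card : ℚ) - (A : ℚ) / T| : ℚ) : ℝ) ≤ ((1 : ℚ) : ℝ) := by
    exact_mod_cast hq
  push_cast at h8
  exact h8

open Classical in
private theorem fibre_eq (k : ℤ) (M A T : ℕ) (R : ℤ → ℤ → ℤ → Prop) (hT : 0 < T) (hR : Per T R) (y : ℕ × ℕ × ℕ)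
    (hy : y ∈ (range T ×ˢ (range T ×ˢ range T)).filter fun x : ℕ × ℕ × ℕ => R x.1 x.2.1 x.2.2) :
    (((Bx k M A).filter fun x => R x.1 x.2.1 x.2.2).filter fun x =>
      ((x.1 % (T : ℤ)).toNat, (x.2.1 % (T : ℤ)).toNat, (x.2.2 % (T : ℤ)).toNat) = y) =
    ((Ia k M A).filter fun a : ℤ => a ≡ y.1 [ZMOD (T : ℤ)]) ×ˢ
      (((Ib k M A).filter fun a : ℤ => a ≡ y.2.1 [ZMOD (T : ℤ)]) ×ˢ
        ((Ic M A).filter fun a : ℤ => a ≡ y.2.2 [ZMOD (T : ℤ)])) := by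
  have hT0 : (0 : ℤ) < T := by exact_mod_cast hT
  have key : ∀ (z : ℤ) (r : ℕ), r < T → ((z % (T : ℤ)).toNat = r ↔ z ≡ r [ZMOD (T : ℤ)]) := by
    intro z r hr
    have h1 : 0 ≤ z % (T : ℤ) := Int.emod_nonneg _ hT0.ne'
    have h2 : (r : ℤ) % (T : ℤ) = r := Int.emod_eq_of_lt (Int.natCast_nonneg _) (by exact_mod_cast hr)
    unfold Int.ModEq
    rw [h2]
    omega
  rw [mem_filter, mem_product, mem_product, mem_range, mem_range, mem_range] at hy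
  obtain ⟨⟨y1, y2, y3⟩, hyR⟩ := hy
  ext x
  rw [mem_filter, mem_filter, Bx, mem_product, mem_product, mem_product, mem_product, mem_filter, mem_filter,
    mem_filter, ← key x.1 y.1 y1, ← key x.2.1 y.2.1 y2, ← key x.2.2 y.2.2 y3]
  constructor
  · rintro ⟨⟨⟨a1, a2, a3⟩, _⟩, a4⟩
    rw [← a4]
    exact ⟨⟨a1, rfl⟩, ⟨a2, rfl⟩, a3, rfl⟩
  · rintro ⟨⟨a1, b1⟩, ⟨a2, b2⟩, a3, b3⟩
    refine ⟨⟨⟨a1, a2, a3⟩, ?_⟩, ?_⟩
    · rw [key _ _ y1] at b1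
      rw [key _ _ y2] at b2
      rw [key _ _ y3] at b3
      exact (hR _ _ _ _ _ _ b1 b2 b3).2 hyR
    · exact Prod.ext b1 (Prod.ext b2 b3)

open Classical in
theorem box_per (k : ℤ) (M A T : ℕ) (R : ℤ → ℤ → ℤ → Prop) (hT : 0 < T) (hTA : T ≤ A) (hR : Per T R) :
    |(((Bx k M A).filter fun x => R x.1 x.2.1 x.2.2).card : ℝ) - cc T R * ((A : ℝ) / T) ^ 3| ≤
      7 * cc T R * ((A : ℝ) / T) ^ 2 := by
  have hT0 : (0 : ℤ) < T := by exact_mod_cast hT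
  have hTr : (0 : ℝ) < T := by exact_mod_cast hT
  have hτ : 1 ≤ (A : ℝ) / T := by
    rw [le_div_iff₀ hTr, one_mul]
    exact_mod_cast hTA
  set G : Finset (ℕ × ℕ × ℕ) := (range T ×ˢ (range T ×ˢ range T)).filter fun x : ℕ × ℕ × ℕ => R x.1 x.2.1 x.2.2 with hG
  have hcc : cc T R = G.card := rfl
  have hmap : ∀ x ∈ (Bx k M A).filter fun x => R x.1 x.2.1 x.2.2,
      ((x.1 % (T : ℤ)).toNat, (x.2.1 % (T : ℤ)).toNat, (x.2.2 % (T : ℤ)).toNat) ∈ G := by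
    intro x hx
    rw [mem_filter] at hx
    have h1 : ∀ z : ℤ, (z % (T : ℤ)).toNat < T ∧ z ≡ (((z % (T : ℤ)).toNat : ℕ) : ℤ) [ZMOD (T : ℤ)] := by
      intro z
      have h2 : 0 ≤ z % (T : ℤ) := Int.emod_nonneg _ hT0.ne'
      have h3 : z % (T : ℤ) < T := Int.emod_lt_of_pos _ hT0
      constructor
      · omega
      · rw [Int.toNat_of_nonneg h2]
        exact (Int.mod_modEq z T).symm
    rw [hG, mem_filter, mem_product, mem_product, mem_range, mem_range, mem_range]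
    refine ⟨⟨(h1 _).1, (h1 _).1, (h1 _).1⟩, ?_⟩
    exact (hR _ _ _ _ _ _ (h1 x.1).2 (h1 x.2.1).2 (h1 x.2.2).2).1 hx.2
  have hcard := Finset.card_eq_sum_card_fiberwise (s := (Bx k M A).filter fun x => R x.1 x.2.1 x.2.2)
    (t := G) (f := fun x : ℤ × ℤ × ℤ => ((x.1 % (T : ℤ)).toNat, (x.2.1 % (T : ℤ)).toNat, (x.2.2 % (T : ℤ)).toNat))
    hmap
  rw [hcard, hcc]
  push_cast
  have hone : ∀ y ∈ G, |((((Bx k M A).filter fun x => R x.1 x.2.1 x.2.2).filter fun x =>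
      ((x.1 % (T : ℤ)).toNat, (x.2.1 % (T : ℤ)).toNat, (x.2.2 % (T : ℤ)).toNat) = y).card : ℝ) -
      ((A : ℝ) / T) ^ 3| ≤ 7 * ((A : ℝ) / T) ^ 2 := by
    intro y hy
    rw [fibre_eq k M A T R hT hR y hy, card_product, card_product]
    push_cast
    rw [← mul_assoc]
    refine three _ _ _ _ hτ ?_ ?_ ?_ (Nat.cast_nonneg _) (Nat.cast_nonneg _) (Nat.cast_nonneg _)
    · exact one_mod _ A T y.1 hT
    · exact one_mod _ A T y.2.1 hT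
    · exact one_mod _ A T y.2.2 hT
  have h2 : ∀ (f : ℕ × ℕ × ℕ → ℝ) (c B : ℝ), (∀ y ∈ G, |f y - c| ≤ B) → |∑ y ∈ G, f y - G.card * c| ≤ G.card * B := by
    intro f c B hf
    have h3 : ∑ y ∈ G, f y - G.card * c = ∑ y ∈ G, (f y - c) := by
      rw [sum_sub_distrib, sum_const, nsmul_eq_mul]
    rw [h3]
    refine (abs_sum_le_sum_abs _ _).trans ((sum_le_sum hf).trans ?_)
    rw [sum_const, nsmul_eq_mul]
  refine (h2 _ _ _ hone).trans (le_of_eq ?_)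
  ring

end H65.DR
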