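import Pool.Agent.H65.DR.Def
import Pool.Agent.H23.LP.Nup

/-!
# [DR S Bt] the density of `p ∣ nn`

Work in the field `F = ZMod p` (`ZMod.natCast_zmod_val`, `ZMod.intCast_zmod_eq_zero_iff_dvd`, see `tr` in `H23/LP/Nup.lean`; the set `range p` corresponds to `F`).
`nn = a³ + k b³ + k² c³ - 3 k a b c` is a monic cubic polynomial in `a`: at most three roots `a` for each `(b, c)` (degree `3` polynomial `X ^ 3 + C (-3 k b c) * X + C (..)`, `Polynomial.card_roots'`).
* `bt_le3`: so `cc ≤ 3 p²`.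
* `bt_le`: let `2, 3, k ≠ 0` in `F`. If `D = b³ - k c³ ≠ 0` the number of `a` with `nn = 0` is exactly `nu k p` (the number of cube roots of `k`): proof of `case1` in `H23/LP/Nup.lean` (private there, copy it; since
  `D ≠ 0` the second condition of `case1` is automatic): bijection `t ↦ a = -b t - c t²`, inverse `a ↦ (k c² - a b)/(b² - a c)`. The number of pairs `(b, c)` with `b³ = k c³` is at most
  `3 p` (for each `c` at most three `b`), each has at most three `a`. So `cc ≤ nu k p * p² + 9 p ≤ nu k p * p² + 10 p`; divide by `p³`.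
* `bt_pos_le`: `0 ≤ bt`.
-/

set_option autoImplicit false

namespace H65.DR

open Finset H23.LP H96.DR Pool.Agent.H95.FL

private theorem tr (p : ℕ) [NeZero p] (Q : ZMod p → Prop) [DecidablePred Q] :
    ((range p).filter fun r : ℕ => Q (r : ZMod p)).card = (univ.filter Q).card := by
  refine Finset.card_nbij' (fun r => (r : ZMod p)) (fun x => x.val) ?_ ?_ ?_ ?_
  · intro r hr
    simp only [coe_filter, mem_range, Set.mem_ofPred_eq, mem_univ, true_and] at hr ⊢
    exact hr.2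
  · intro x hx
    simp only [coe_filter, mem_range, Set.mem_ofPred_eq, mem_univ, true_and] at hx ⊢
    refine ⟨ZMod.val_lt x, ?_⟩
    rw [ZMod.natCast_zmod_val]; exact hx
  · intro r hr
    simp only [coe_filter, mem_range, Set.mem_ofPred_eq] at hr
    exact ZMod.val_cast_of_lt hr.1
  · intro x _
    exact ZMod.natCast_zmod_val x

private theorem case1 {F : Type} [Field F] [Fintype F] [DecidableEq F] (k b c : F)
    (hD : b ^ 3 - k * c ^ 3 ≠ 0) :
    (univ.filter fun x : F => (x ^ 3 + k * b ^ 3 + k ^ 2 * c ^ 3 - 3 * k * x * b * c = 0) ∧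
      ¬ (b ^ 2 - x * c = 0 ∧ b ^ 3 - k * c ^ 3 = 0)).card =
    (univ.filter fun t : F => t ^ 3 - k = 0).card := by
  have hC : ∀ x : F, x ^ 3 + k * b ^ 3 + k ^ 2 * c ^ 3 - 3 * k * x * b * c = 0 →
      b ^ 2 - x * c ≠ 0 := by
    intro x hx h0
    apply hD
    have h1 : (b ^ 3 - k * c ^ 3) ^ 2 = 0 := by
      linear_combination c ^ 3 * hx -
        ((x * c + 2 * b ^ 2) * (b ^ 2 - x * c) - 3 * b * (b ^ 3 - k * c ^ 3)) * h0
    exact pow_eq_zero_iff (two_ne_zero) |>.mp h1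
  refine Finset.card_nbij' (fun x => (k * c ^ 2 - x * b) / (b ^ 2 - x * c))
    (fun t => -b * t - c * t ^ 2) ?_ ?_ ?_ ?_
  · intro x hx
    simp only [coe_filter, Set.mem_ofPred_eq, mem_univ, true_and] at hx ⊢
    have h1 := hC x hx.1
    rw [div_pow, sub_eq_zero, div_eq_iff (pow_ne_zero 3 h1)]
    linear_combination -(b ^ 3 - k * c ^ 3) * hx.1
  · intro t ht
    simp only [coe_filter, Set.mem_ofPred_eq, mem_univ, true_and] at ht ⊢
    refine ⟨?_, fun h => hD h.2⟩
    linear_combination (-(c ^ 3 * (k + t ^ 3) + b ^ 3 - 3 * (-b * t - c * t ^ 2) * b * c)) * ht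
  · intro x hx
    simp only [coe_filter, Set.mem_ofPred_eq, mem_univ, true_and] at hx
    have h1 := hC x hx.1
    show -b * ((k * c ^ 2 - x * b) / (b ^ 2 - x * c)) -
      c * ((k * c ^ 2 - x * b) / (b ^ 2 - x * c)) ^ 2 = x
    have h2 : (-b * ((k * c ^ 2 - x * b) / (b ^ 2 - x * c)) -
      c * ((k * c ^ 2 - x * b) / (b ^ 2 - x * c)) ^ 2) =
      (-b * (k * c ^ 2 - x * b) * (b ^ 2 - x * c) - c * (k * c ^ 2 - x * b) ^ 2) /
        (b ^ 2 - x * c) ^ 2 := by
      field_simp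
    rw [h2, div_eq_iff (pow_ne_zero 2 h1)]
    linear_combination -c ^ 2 * hx.1
  · intro t ht
    simp only [coe_filter, Set.mem_ofPred_eq, mem_univ, true_and] at ht
    have hn : (-b * t - c * t ^ 2) ^ 3 + k * b ^ 3 + k ^ 2 * c ^ 3 -
        3 * k * (-b * t - c * t ^ 2) * b * c = 0 := by
      linear_combination (-(c ^ 3 * (k + t ^ 3) + b ^ 3 - 3 * (-b * t - c * t ^ 2) * b * c)) * ht
    have h1 := hC _ hn
    show (k * c ^ 2 - (-b * t - c * t ^ 2) * b) / (b ^ 2 - (-b * t - c * t ^ 2) * c) = t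
    rw [div_eq_iff h1]
    linear_combination -c ^ 2 * ht

private theorem root3 (p : ℕ) [Fact p.Prime] (u v : ZMod p) :
    (univ.filter fun x : ZMod p => x ^ 3 + (u * x + v) = 0).card ≤ 3 := by
  classical
  obtain ⟨G, hG⟩ : ∃ G : Polynomial (ZMod p), G = Polynomial.X ^ 3 +
      (Polynomial.C u * Polynomial.X + Polynomial.C v) := ⟨_, rfl⟩
  have hdeg : (Polynomial.C u * Polynomial.X + Polynomial.C v).degree < 3 := by
    refine lt_of_le_of_lt Polynomial.degree_linear_le ?_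
    norm_num
  have hmon : G.Monic := by
    rw [hG]
    refine Polynomial.monic_X_pow_add (n := 3) ?_
    exact_mod_cast hdeg
  have hnd : G.natDegree = 3 := by
    rw [hG]
    exact Polynomial.natDegree_eq_of_degree_eq_some (by
      rw [Polynomial.degree_add_eq_left_of_degree_lt]
      · rw [Polynomial.degree_X_pow]
      · rw [Polynomial.degree_X_pow]
        exact_mod_cast hdeg)
  have h1 : (univ.filter fun x : ZMod p => x ^ 3 + (u * x + v) = 0) ⊆ G.roots.toFinset := by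
    intro x hx
    rw [mem_filter] at hx
    rw [Multiset.mem_toFinset, Polynomial.mem_roots hmon.ne_zero, Polynomial.IsRoot.def, hG]
    simp only [Polynomial.eval_add, Polynomial.eval_pow, Polynomial.eval_X, Polynomial.eval_mul,
      Polynomial.eval_C]
    exact hx.2
  refine (Finset.card_le_card h1).trans ((Multiset.toFinset_card_le _).trans ?_)
  rw [← hnd]
  exact Polynomial.card_roots' G

/-- the number of `a` -/
private noncomputable def na (k : ℤ) (p : ℕ) (b c : ℤ) : ℕ :=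
  ((range p).filter fun a : ℕ => (p : ℤ) ∣ nn k a b c).card

private theorem na_le3 (k : ℤ) (p : ℕ) (hp : p.Prime) (b c : ℤ) : na k p b c ≤ 3 := by
  have : Fact p.Prime := ⟨hp⟩
  have e1 : na k p b c = (univ.filter fun x : ZMod p => x ^ 3 + ((-(3 * k * b * c : ℤ) : ZMod p) * x +
      ((k * b ^ 3 + k ^ 2 * c ^ 3 : ℤ) : ZMod p)) = 0).card := by
    rw [← tr p, na]
    congr 1
    apply Finset.filter_congr
    intro r _
    rw [← ZMod.intCast_zmod_eq_zero_iff_dvd]
    have h1 : ((nn k r b c : ℤ) : ZMod p) = (r : ZMod p) ^ 3 + ((-(3 * k * b * c : ℤ) : ZMod p) * r +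
      ((k * b ^ 3 + k ^ 2 * c ^ 3 : ℤ) : ZMod p)) := by
      simp only [nn]
      push_cast
      ring
    rw [h1]
  rw [e1]
  exact root3 p _ _

private theorem na_le (k : ℤ) (p : ℕ) (hp : p.Prime) (b c : ℤ) (hD : ¬ (p : ℤ) ∣ b ^ 3 - k * c ^ 3) :
    na k p b c ≤ nu k p := by
  have : Fact p.Prime := ⟨hp⟩
  have hdv : ∀ z : ℤ, (p : ℤ) ∣ z ↔ ((z : ℤ) : ZMod p) = 0 := fun z =>
    (ZMod.intCast_zmod_eq_zero_iff_dvd z p).symm
  have hD0 : (b : ZMod p) ^ 3 - k * c ^ 3 ≠ 0 := by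
    intro h
    apply hD
    rw [hdv]
    push_cast
    exact h
  have e1 : na k p b c =
      (univ.filter fun x : ZMod p => (x ^ 3 + (k : ZMod p) * b ^ 3 + (k : ZMod p) ^ 2 * c ^ 3 -
        3 * k * x * b * c = 0) ∧
      ¬ ((b : ZMod p) ^ 2 - x * c = 0 ∧ (b : ZMod p) ^ 3 - k * c ^ 3 = 0)).card := by
    rw [← tr p, na]
    congr 1
    apply Finset.filter_congr
    intro r _
    rw [hdv]
    have h1 : ((nn k r b c : ℤ) : ZMod p) = (r : ZMod p) ^ 3 + (k : ZMod p) * b ^ 3 +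
        (k : ZMod p) ^ 2 * c ^ 3 - 3 * k * r * b * c := by
      simp only [nn]
      push_cast
      ring
    rw [h1]
    exact ⟨fun h => ⟨h, fun h2 => hD0 h2.2⟩, fun h => h.1⟩
  rw [e1, case1 _ _ _ hD0, ← tr p, nu]
  refine le_of_eq ?_
  congr 1
  apply Finset.filter_congr
  intro r _
  rw [hdv]
  push_cast
  rfl

private theorem nb_le (k : ℤ) (p : ℕ) (hp : p.Prime) (c : ℤ) :
    ((range p).filter fun b : ℕ => (p : ℤ) ∣ (b : ℤ) ^ 3 - k * c ^ 3).card ≤ 3 := by
  have : Fact p.Prime := ⟨hp⟩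
  have e1 : ((range p).filter fun b : ℕ => (p : ℤ) ∣ (b : ℤ) ^ 3 - k * c ^ 3).card =
      (univ.filter fun x : ZMod p => x ^ 3 + ((0 : ZMod p) * x + ((-(k * c ^ 3) : ℤ) : ZMod p)) = 0).card := by
    rw [← tr p]
    congr 1
    apply Finset.filter_congr
    intro r _
    rw [← ZMod.intCast_zmod_eq_zero_iff_dvd]
    have h1 : (((r : ℤ) ^ 3 - k * c ^ 3 : ℤ) : ZMod p) =
        (r : ZMod p) ^ 3 + ((0 : ZMod p) * r + ((-(k * c ^ 3) : ℤ) : ZMod p)) := by
      push_cast
      ring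
    rw [h1]
  rw [e1]
  exact root3 p _ _

private theorem cc_eq (k : ℤ) (p : ℕ) : cc p (fun a b c => (p : ℤ) ∣ nn k a b c) =
    ∑ y ∈ range p ×ˢ range p, na k p y.1 y.2 := by
  classical
  unfold cc na
  rw [Finset.card_filter, Finset.sum_product_right]
  refine Finset.sum_congr rfl fun y _ => ?_
  rw [Finset.card_filter]
  refine Finset.sum_congr rfl fun x _ => ?_
  split_ifs with h1
  · rfl
  · rfl

private theorem cc_le3 (k : ℤ) (p : ℕ) (hp : p.Prime) :
    cc p (fun a b c => (p : ℤ) ∣ nn k a b c) ≤ 3 * p ^ 2 := by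
  rw [cc_eq]
  refine (Finset.sum_le_sum fun y _ => na_le3 k p hp y.1 y.2).trans (le_of_eq ?_)
  rw [Finset.sum_const, Finset.card_product, Finset.card_range, smul_eq_mul]
  ring

private theorem cc_le (k : ℤ) (p : ℕ) (hp : p.Prime) :
    cc p (fun a b c => (p : ℤ) ∣ nn k a b c) ≤ nu k p * p ^ 2 + 9 * p := by
  classical
  have h1 : ∀ y ∈ range p ×ˢ range p, na k p y.1 y.2 ≤
      nu k p + 3 * (if (p : ℤ) ∣ (y.1 : ℤ) ^ 3 - k * (y.2 : ℤ) ^ 3 then 1 else 0) := by
    intro y _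
    split_ifs with h
    · have := na_le3 k p hp y.1 y.2
      omega
    · have := na_le k p hp y.1 y.2 h
      omega
  rw [cc_eq]
  refine (Finset.sum_le_sum h1).trans ?_
  rw [Finset.sum_add_distrib, Finset.sum_const, Finset.card_product, Finset.card_range, smul_eq_mul,
    ← Finset.mul_sum, Finset.sum_product_right]
  have h2 : ∀ c ∈ range p, (∑ b ∈ range p, if (p : ℤ) ∣ (b : ℤ) ^ 3 - k * (c : ℤ) ^ 3 then 1 else 0) ≤ 3 := by
    intro c _
    rw [← Finset.card_filter]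
    exact nb_le k p hp c
  have h3 := Finset.sum_le_sum h2
  rw [Finset.sum_const, Finset.card_range, smul_eq_mul] at h3
  nlinarith

theorem bt_nonneg (k : ℤ) (p : ℕ) : 0 ≤ bt k p := by
  unfold bt; positivity

theorem bt_le3 (k : ℤ) (p : ℕ) (hp : p.Prime) : bt k p ≤ 3 / (p : ℝ) := by
  have hp0 : (0 : ℝ) < p := by exact_mod_cast hp.pos
  unfold bt
  rw [div_le_div_iff₀ (by positivity) hp0]
  have h1 : (cc p (fun a b c => (p : ℤ) ∣ nn k a b c) : ℝ) ≤ 3 * (p : ℝ) ^ 2 := by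
    exact_mod_cast cc_le3 k p hp
  calc (cc p (fun a b c => (p : ℤ) ∣ nn k a b c) : ℝ) * p ≤ 3 * (p : ℝ) ^ 2 * p :=
        mul_le_mul_of_nonneg_right h1 hp0.le
    _ = 3 * (p : ℝ) ^ 3 := by ring

theorem bt_le (k : ℤ) (p : ℕ) (hp : p.Prime) (h6 : ¬ (p : ℤ) ∣ 6 * k) :
    bt k p ≤ (nu k p : ℝ) / p + 10 / (p : ℝ) ^ 2 := by
  have hp0 : (0 : ℝ) < p := by exact_mod_cast hp.pos
  unfold bt
  have h1 : (cc p (fun a b c => (p : ℤ) ∣ nn k a b c) : ℝ) ≤ nu k p * (p : ℝ) ^ 2 + 9 * p := by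
    exact_mod_cast cc_le k p hp
  have h2 : (nu k p : ℝ) / p + 10 / (p : ℝ) ^ 2 = (nu k p * (p : ℝ) ^ 2 + 10 * p) / (p : ℝ) ^ 3 := by
    field_simp
  rw [h2]
  refine div_le_div_of_nonneg_right (h1.trans ?_) (by positivity)
  linarith

end H65.DR
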