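import Pool.Agent.H65.DR.Def

/-!
# [DR S Cr] Chinese remainder theorem for the numbers of classes

* `cc_mul`: the map `(a, b, c) ↦ ((a % T1, b % T1, c % T1), (a % T2, b % T2, c % T2))` from `range (T1 T2) ^ 3` to `range T1 ^ 3 × range T2 ^ 3` is a bijection (`Nat.chineseRemainder`, `Nat.coprime` uniqueness:
  `Nat.ModEq` modulo `T1` and `T2` gives modulo `T1 T2` (`Nat.modEq_and_modEq_iff_modEq_mul`), numbers `< T1 T2`), and `R1`, `R2` are preserved by `Per` (`a ≡ a % T [ZMOD T]`).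
* `cc_le`: a subset of `range T ^ 3`.
* `cc_congr`: the condition is only used for the elements.
* `per_dvd`: `nn` is a polynomial with integer coefficients (`Int.ModEq` is preserved by sums, products and powers), so `p ∣ nn` is periodic modulo `p` (and modulo multiples: `per_mul`).
* `per_ex`: let `n ≡ n' [ZMOD j²]`, `j ≥ 1`. `j ∣ n ↔ j ∣ n'`; if so, `n / j ≡ n' / j [ZMOD j]` (`n = j m`, `n' = j m'`, `j² ∣ j (m - m')`), so `gcd (n / j) j = gcd (n' / j) j` (`Int.ModEq.gcd_eq` or `Int.gcd_emod`).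
* `cc_prod`: induction on `S` (insert `p`): `∏ (insert p S) = p * ∏ S`, coprime, `cc_mul` with `R1 = (p ∣ nn)`, `R2 = (∀ q ∈ S, q ∣ nn)` (periodic modulo `∏ S`: every `q ∈ S` divides `∏ S`),
  `cc p = p³ bt`. `S = ∅`: `cc 1 (True) = 1`.
* `cc_cl`: for `Q ≥ 1` the only class is `(1 % Q, 0, 0)`.
-/

set_option autoImplicit false

namespace H65.DR

open Finset H23.LP H96.DR Pool.Agent.H95.FL

private theorem md (n T : ℕ) : (n : ℤ) ≡ ((n % T : ℕ) : ℤ) [ZMOD (T : ℤ)] := by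
  rw [Int.natCast_modEq_iff]
  exact (Nat.mod_modEq n T).symm

private theorem cc_mul' (T1 T2 : ℕ) (h : Nat.Coprime T1 T2) (hT1 : 0 < T1) (hT2 : 0 < T2)
    (R R1 R2 : ℤ → ℤ → ℤ → Prop) (hR : ∀ a b c, R a b c ↔ R1 a b c ∧ R2 a b c) (h1 : Per T1 R1) (h2 : Per T2 R2) :
    cc (T1 * T2) R = cc T1 R1 * cc T2 R2 := by
  classical
  unfold cc
  rw [← card_product]
  refine card_bij (fun x _ => ((x.1 % T1, x.2.1 % T1, x.2.2 % T1), (x.1 % T2, x.2.1 % T2, x.2.2 % T2))) ?_ ?_ ?_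
  · intro x hx
    rw [mem_filter, hR] at hx
    obtain ⟨-, hx1, hx2⟩ := hx
    rw [mem_product]
    refine ⟨mem_filter.2 ⟨?_, ?_⟩, mem_filter.2 ⟨?_, ?_⟩⟩
    · exact mem_product.2 ⟨mem_range.2 (Nat.mod_lt _ hT1), mem_product.2 ⟨mem_range.2 (Nat.mod_lt _ hT1),
        mem_range.2 (Nat.mod_lt _ hT1)⟩⟩
    · exact (h1 _ _ _ _ _ _ (md _ _) (md _ _) (md _ _)).1 hx1
    · exact mem_product.2 ⟨mem_range.2 (Nat.mod_lt _ hT2), mem_product.2 ⟨mem_range.2 (Nat.mod_lt _ hT2),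
        mem_range.2 (Nat.mod_lt _ hT2)⟩⟩
    · exact (h2 _ _ _ _ _ _ (md _ _) (md _ _) (md _ _)).1 hx2
  · intro x hx y hy hxy
    rw [mem_filter] at hx hy
    obtain ⟨hx0, -⟩ := hx
    obtain ⟨hy0, -⟩ := hy
    simp only [mem_product, mem_range] at hx0 hy0
    simp only [Prod.mk.injEq] at hxy
    obtain ⟨⟨a1, a2, a3⟩, b1, b2, b3⟩ := hxy
    have key : ∀ u v : ℕ, u < T1 * T2 → v < T1 * T2 → u % T1 = v % T1 → u % T2 = v % T2 → u = v := by
      intro u v hu hv huv huv'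
      have e : u ≡ v [MOD T1 * T2] := (Nat.modEq_and_modEq_iff_modEq_mul h).1 ⟨huv, huv'⟩
      exact Nat.ModEq.eq_of_lt_of_lt e hu hv
    exact Prod.ext (key _ _ hx0.1 hy0.1 a1 b1) (Prod.ext (key _ _ hx0.2.1 hy0.2.1 a2 b2)
      (key _ _ hx0.2.2 hy0.2.2 a3 b3))
  · rintro ⟨u, v⟩ huv
    rw [mem_product] at huv
    obtain ⟨hu, hv⟩ := huv
    obtain ⟨hu0, hu1⟩ := mem_filter.1 hu
    obtain ⟨hv0, hv1⟩ := mem_filter.1 hv
    simp only [mem_product, mem_range] at hu0 hv0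
    have key : ∀ a b : ℕ, a < T1 → b < T2 → ∃ n : ℕ, n < T1 * T2 ∧ n % T1 = a ∧ n % T2 = b := by
      intro a b ha hb
      refine ⟨(Nat.chineseRemainder h a b : ℕ), Nat.chineseRemainder_lt_mul h a b hT1.ne' hT2.ne', ?_, ?_⟩
      · have := (Nat.chineseRemainder h a b).2.1
        unfold Nat.ModEq at this
        rw [this, Nat.mod_eq_of_lt ha]
      · have := (Nat.chineseRemainder h a b).2.2
        unfold Nat.ModEq at this
        rw [this, Nat.mod_eq_of_lt hb]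
    obtain ⟨n1, l1, c1, d1⟩ := key u.1 v.1 hu0.1 hv0.1
    obtain ⟨n2, l2, c2, d2⟩ := key u.2.1 v.2.1 hu0.2.1 hv0.2.1
    obtain ⟨n3, l3, c3, d3⟩ := key u.2.2 v.2.2 hu0.2.2 hv0.2.2
    refine ⟨(n1, n2, n3), (by
      rw [mem_filter, hR]
      refine ⟨?_, ?_, ?_⟩
      · exact mem_product.2 ⟨mem_range.2 l1, mem_product.2 ⟨mem_range.2 l2, mem_range.2 l3⟩⟩
      · refine (h1 _ _ _ _ _ _ (md n1 T1) (md n2 T1) (md n3 T1)).2 ?_
        rw [c1, c2, c3]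
        exact hu1
      · refine (h2 _ _ _ _ _ _ (md n1 T2) (md n2 T2) (md n3 T2)).2 ?_
        rw [d1, d2, d3]
        exact hv1), ?_⟩
    simp only [c1, c2, c3, d1, d2, d3]

theorem cc_mul (T1 T2 : ℕ) (h : Nat.Coprime T1 T2) (hT1 : 0 < T1) (hT2 : 0 < T2)
    (R1 R2 : ℤ → ℤ → ℤ → Prop) (h1 : Per T1 R1) (h2 : Per T2 R2) :
    cc (T1 * T2) (fun a b c => R1 a b c ∧ R2 a b c) = cc T1 R1 * cc T2 R2 :=
  cc_mul' T1 T2 h hT1 hT2 _ R1 R2 (fun _ _ _ => Iff.rfl) h1 h2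

theorem cc_le (T : ℕ) (R : ℤ → ℤ → ℤ → Prop) : cc T R ≤ T ^ 3 := by
  classical
  unfold cc
  refine (card_filter_le _ _).trans (le_of_eq ?_)
  rw [card_product, card_product, card_range]
  ring

theorem cc_congr (T : ℕ) (R R' : ℤ → ℤ → ℤ → Prop) (h : ∀ a b c, R a b c ↔ R' a b c) : cc T R = cc T R' := by
  classical
  unfold cc
  exact congrArg card (filter_congr fun x _ => h _ _ _)

theorem per_mul (T T' : ℕ) (R : ℤ → ℤ → ℤ → Prop) (h : Per T R) (hd : T ∣ T') : Per T' R := by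
  intro a b c a' b' c' ha hb hc
  have hd' : (T : ℤ) ∣ (T' : ℤ) := Int.natCast_dvd_natCast.2 hd
  exact h a b c a' b' c' (ha.of_dvd hd') (hb.of_dvd hd') (hc.of_dvd hd')

theorem per_and (T : ℕ) (R R' : ℤ → ℤ → ℤ → Prop) (h : Per T R) (h' : Per T R') :
    Per T (fun a b c => R a b c ∧ R' a b c) := by
  intro a b c a' b' c' ha hb hc
  exact and_congr (h a b c a' b' c' ha hb hc) (h' a b c a' b' c' ha hb hc)

theorem nn_mod (k T a b c a' b' c' : ℤ) (ha : a ≡ a' [ZMOD T]) (hb : b ≡ b' [ZMOD T]) (hc : c ≡ c' [ZMOD T]) :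
    nn k a b c ≡ nn k a' b' c' [ZMOD T] := by
  unfold nn
  exact (((ha.pow 3).add ((hb.pow 3).mul_left k)).add ((hc.pow 3).mul_left (k ^ 2))).sub
    (((ha.mul_left (3 * k)).mul hb).mul hc)

theorem per_dvd (k : ℤ) (S : Finset ℕ) : Per (∏ p ∈ S, p) (fun a b c => ∀ p ∈ S, (p : ℤ) ∣ nn k a b c) := by
  intro a b c a' b' c' ha hb hc
  refine forall₂_congr fun p hp => ?_
  have h1 : ((∏ p ∈ S, p : ℕ) : ℤ) ∣ nn k a' b' c' - nn k a b c := (nn_mod k _ a b c a' b' c' ha hb hc).dvd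
  have h2 : (p : ℤ) ∣ nn k a' b' c' - nn k a b c :=
    (Int.natCast_dvd_natCast.2 (dvd_prod_of_mem (fun p => p) hp)).trans h1
  exact (dvd_iff_dvd_of_dvd_sub h2).symm

theorem per_ex (k : ℤ) (j : ℕ) (hj : 1 ≤ j) : Per (j ^ 2) (fun a b c => Ex j (nn k a b c)) := by
  have hj0 : (j : ℤ) ≠ 0 := by
    have : (1 : ℤ) ≤ j := by exact_mod_cast hj
    omega
  have key : ∀ n n' : ℤ, n ≡ n' [ZMOD ((j ^ 2 : ℕ) : ℤ)] → Ex j n → Ex j n' := by
    rintro n n' h ⟨⟨m, hm⟩, h2⟩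
    have h3 : ((j ^ 2 : ℕ) : ℤ) ∣ n' - n := h.dvd
    obtain ⟨u, hu⟩ := h3
    have h4 : n' = j * (m + j * u) := by
      have h5 : n' = n + ((j ^ 2 : ℕ) : ℤ) * u := by linarith
      rw [h5, hm]
      push_cast
      ring
    refine ⟨⟨_, h4⟩, ?_⟩
    rw [hm, Int.mul_ediv_cancel_left _ hj0] at h2
    rw [h4, Int.mul_ediv_cancel_left _ hj0]
    rw [← Int.isCoprime_iff_gcd_eq_one] at h2 ⊢
    exact h2.add_mul_left_left u
  intro a b c a' b' c' ha hb hc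
  have h1 := nn_mod k _ a b c a' b' c' ha hb hc
  exact ⟨key _ _ h1, key _ _ h1.symm⟩

theorem per_cl (k : ℤ) (w : ℕ) : Per (QQ k w) (fun a b c => Cl k w a b c) := by
  intro a b c a' b' c' ha hb hc
  unfold Cl
  exact ⟨fun h => ⟨ha.symm.trans h.1, hb.symm.trans h.2.1, hc.symm.trans h.2.2⟩,
    fun h => ⟨ha.trans h.1, hb.trans h.2.1, hc.trans h.2.2⟩⟩

theorem cc_cl (k : ℤ) (w : ℕ) (hk : k ≠ 0) : cc (QQ k w) (fun a b c => Cl k w a b c) = 1 := by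
  classical
  have hQ : 0 < QQ k w := by
    unfold QQ
    exact Nat.mul_pos (Nat.mul_pos (by norm_num) (Int.natAbs_pos.2 hk)) (Nat.factorial_pos w)
  unfold cc
  rw [card_eq_one]
  refine ⟨(1 % QQ k w, 0, 0), ?_⟩
  ext ⟨a, b, c⟩
  simp only [mem_filter, mem_product, mem_range, mem_singleton, Prod.mk.injEq]
  constructor
  · rintro ⟨⟨ha, hb, hc⟩, h1, h2, h3⟩
    have key : ∀ u v : ℕ, u < QQ k w → v < QQ k w → (u : ℤ) ≡ (v : ℤ) [ZMOD (QQ k w : ℤ)] → u = v := by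
      intro u v hu hv huv
      rw [Int.natCast_modEq_iff] at huv
      exact Nat.ModEq.eq_of_lt_of_lt huv hu hv
    refine ⟨key _ _ ha (Nat.mod_lt _ hQ) (h1.trans ?_), key _ _ hb hQ (by exact_mod_cast h2), key _ _ hc hQ (by exact_mod_cast h3)⟩
    have := md 1 (QQ k w)
    exact_mod_cast this
  · rintro ⟨rfl, rfl, rfl⟩
    refine ⟨⟨Nat.mod_lt _ hQ, hQ, hQ⟩, ?_, ?_, ?_⟩
    · have := (md 1 (QQ k w)).symm
      exact_mod_cast this
    · exact Int.ModEq.refl _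
    · exact Int.ModEq.refl _

theorem cc_prod (k : ℤ) (S : Finset ℕ) (hS : ∀ p ∈ S, p.Prime) :
    (cc (∏ p ∈ S, p) (fun a b c => ∀ p ∈ S, (p : ℤ) ∣ nn k a b c) : ℝ) = ∏ p ∈ S, ((p : ℝ) ^ 3 * bt k p) := by
  classical
  induction S using Finset.induction_on with
  | empty =>
    have h1 : cc (∏ p ∈ (∅ : Finset ℕ), p) (fun a b c => ∀ p ∈ (∅ : Finset ℕ), (p : ℤ) ∣ nn k a b c) = 1 := by
      unfold cc
      simp
    rw [h1, prod_empty]
    norm_num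
  | insert p S hp ih =>
    have hpp : p.Prime := hS p (mem_insert_self _ _)
    have hS' : ∀ q ∈ S, q.Prime := fun q hq => hS q (mem_insert_of_mem hq)
    have hpos : 0 < ∏ q ∈ S, q := prod_pos fun q hq => (hS' q hq).pos
    have hcop : Nat.Coprime p (∏ q ∈ S, q) := by
      refine Nat.Coprime.prod_right fun q hq => ?_
      refine (Nat.coprime_primes hpp (hS' q hq)).2 ?_
      rintro rfl
      exact hp hq
    have hper : Per p (fun a b c => (p : ℤ) ∣ nn k a b c) := by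
      have h1 := per_dvd k {p}
      intro a b c a' b' c' ha hb hc
      have h2 := h1 a b c a' b' c' (by rwa [prod_singleton]) (by rwa [prod_singleton]) (by rwa [prod_singleton])
      simpa using h2
    have h1 := cc_mul p (∏ q ∈ S, q) hcop hpp.pos hpos (fun a b c => (p : ℤ) ∣ nn k a b c)
      (fun a b c => ∀ q ∈ S, (q : ℤ) ∣ nn k a b c) hper (per_dvd k S)
    rw [prod_insert hp, prod_insert hp, ← ih hS']
    have h2 : cc (p * ∏ q ∈ S, q) (fun a b c => ∀ q ∈ insert p S, (q : ℤ) ∣ nn k a b c) =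
        cc (p * ∏ q ∈ S, q) (fun a b c => (p : ℤ) ∣ nn k a b c ∧ ∀ q ∈ S, (q : ℤ) ∣ nn k a b c) :=
      cc_congr _ _ _ fun a b c => forall_mem_insert _ _ _
    rw [h2, h1, Nat.cast_mul]
    congr 1
    unfold bt
    have h3 : (p : ℝ) ^ 3 ≠ 0 := pow_ne_zero 3 (Nat.cast_ne_zero.2 hpp.ne_zero)
    rw [mul_div_cancel₀ _ h3]

end H65.DR
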