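import Pool.Agent.H65.DR.Bc
import Pool.Agent.H65.DR.Cr
import Pool.Agent.H65.DR.Bt

/-!
# [DR S Ct] the number of `x ∈ AJ` with given prime divisors of the norm

`Q = QQ k w = 6 |k| w!`, `T = Q * (j ^ 2 * ∏ S)`, `R = Cl ∧ (Ex j nn ∧ ∀ p ∈ S, p ∣ nn)`. The filtered set is `(Bx k M A).filter R` (`AJ` unfolded). Every `p ∈ S ⊆ Pj w A j` is a prime `> w ≥ 6 |k| + 10`, `p ∤ j`: so `p ∤ Q`
(`p ∤ 6`, `p ∤ |k|` because `0 < |k| < p`, `p ∤ w!` by `Nat.Prime.dvd_factorial`), hence `Q` is coprime to `j ^ 2 * ∏ S` and `j ^ 2` is coprime to `∏ S` (`Nat.Coprime.prod_right`).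
`Per T R` by `per_cl`, `per_ex`, `per_dvd`, `per_mul`, `per_and`; by `cc_mul` twice, `cc_cl`, `cc_prod`: `cc T R = 1 * (Ej k j * ∏ (p³ bt))`. `box_per`: main term
`Ej ∏ (p³ bt) A³ / (Q j² ∏ p)³ = Mj ∏ bt`; error `7 Ej ∏ (p³ bt) A² / (Q j² ∏ p)² ≤ 7 j⁶ ∏ (3 p²) A² / (Q² j⁴ ∏ p²) ≤ 7 j² 3^#S A²` (`Ej ≤ j⁶` by `cc_le`, `bt ≤ 3/p`, `Q ≥ 1`).
-/

set_option autoImplicit false

namespace H65.DR

open Finset H23.LP H96.DR Pool.Agent.H95.FL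

theorem mem_Pj (w A j p : ℕ) : p ∈ Pj w A j ↔ p.Prime ∧ w < p ∧ ¬ p ∣ j ∧ (p : ℝ) ≤ (A : ℝ) ^ (0.0144 : ℝ) := by
  unfold Pj
  rw [mem_filter, mem_range, Nat.lt_succ_iff, Nat.le_floor_iff (by positivity)]
  tauto

theorem Pj_QQ (k : ℤ) (hk : k ≠ 0) (w A j : ℕ) (hw : 6 * k.natAbs + 10 ≤ w) (p : ℕ) (hp : p ∈ Pj w A j) :
    ¬ p ∣ QQ k w ∧ ¬ (p : ℤ) ∣ 6 * k := by
  obtain ⟨hpp, hwp, -, -⟩ := (mem_Pj w A j p).1 hp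
  have hk0 : 0 < k.natAbs := Int.natAbs_pos.2 hk
  have h6 : ¬ p ∣ 6 * k.natAbs := by
    intro h
    have := Nat.le_of_dvd (by omega) h
    omega
  constructor
  · intro h
    rw [QQ, hpp.dvd_mul] at h
    rcases h with h | h
    · exact h6 h
    · exact absurd ((hpp.dvd_factorial).1 h) (by omega)
  · intro h
    rw [Int.natCast_dvd, Int.natAbs_mul] at h
    exact h6 h

theorem nn_ne (k : ℤ) (w : ℕ) (a b c : ℤ) (h : Cl k w a b c) (p : ℕ) (hp : p.Prime) (hpw : p ≤ w) :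
    nn k a b c ≠ 0 ∧ ¬ (p : ℤ) ∣ nn k a b c := by
  have hQ : (p : ℤ) ∣ (QQ k w : ℤ) := by
    have h1 : p ∣ QQ k w := by
      rw [QQ]
      exact Dvd.dvd.mul_left (hp.dvd_factorial.2 hpw) _
    exact_mod_cast h1
  have h1 : nn k a b c ≡ nn k 1 0 0 [ZMOD (p : ℤ)] :=
    nn_mod k p a b c 1 0 0 (h.1.of_dvd hQ) (h.2.1.of_dvd hQ) (h.2.2.of_dvd hQ)
  have h2 : nn k 1 0 0 = 1 := by simp [nn]
  rw [h2] at h1
  have h3 : ¬ (p : ℤ) ∣ nn k a b c := by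
    intro hd
    have h4 : (1 : ℤ) ≡ 0 [ZMOD (p : ℤ)] := h1.symm.trans (Int.modEq_zero_iff_dvd.2 hd)
    have h5 : (p : ℤ) ∣ 1 := Int.modEq_zero_iff_dvd.1 h4
    exact hp.one_lt.ne' (by exact_mod_cast Int.eq_one_of_dvd_one (by positivity) h5)
  exact ⟨fun h0 => h3 (by rw [h0]; exact dvd_zero _), h3⟩

private theorem main_eq {Q P A j : ℕ} {E X Y : ℝ} (hQ : 0 < Q) (hP : 0 < P) (hj : 1 ≤ j)
    (h : X = (P : ℝ) ^ 3 * Y) : E * X * ((A : ℝ) / ((Q * (j ^ 2 * P) : ℕ) : ℝ)) ^ 3 =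
      E * (A : ℝ) ^ 3 / ((Q : ℝ) ^ 3 * (j : ℝ) ^ 6) * Y := by
  have hQr : (0 : ℝ) < Q := by exact_mod_cast hQ
  have hPr : (0 : ℝ) < P := by exact_mod_cast hP
  have hjr : (0 : ℝ) < j := by exact_mod_cast hj
  rw [h]
  push_cast
  rw [div_pow, mul_pow, mul_pow, ← pow_mul]
  field_simp

private theorem err_le {Q P A j n : ℕ} {E X : ℝ} (hQ : 0 < Q) (hP : 0 < P) (hj : 1 ≤ j)
    (h1 : E ≤ (j : ℝ) ^ 6) (h2 : X ≤ 3 ^ n * (P : ℝ) ^ 2) (h3 : 0 ≤ X) :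
    7 * (E * X) * ((A : ℝ) / ((Q * (j ^ 2 * P) : ℕ) : ℝ)) ^ 2 ≤
      7 * (j : ℝ) ^ 2 * 3 ^ n * (A : ℝ) ^ 2 := by
  have hQr : (0 : ℝ) < Q := by exact_mod_cast hQ
  have hQ1 : (1 : ℝ) ≤ Q := by exact_mod_cast hQ
  have hPr : (0 : ℝ) < P := by exact_mod_cast hP
  have hjr : (0 : ℝ) < j := by exact_mod_cast hj
  have h4 : E * X ≤ (j : ℝ) ^ 6 * (3 ^ n * (P : ℝ) ^ 2) :=
    mul_le_mul h1 h2 h3 (by positivity)
  have h5 : 7 * (E * X) * ((A : ℝ) / ((Q * (j ^ 2 * P) : ℕ) : ℝ)) ^ 2 ≤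
      7 * ((j : ℝ) ^ 6 * (3 ^ n * (P : ℝ) ^ 2)) * ((A : ℝ) / ((Q * (j ^ 2 * P) : ℕ) : ℝ)) ^ 2 :=
    mul_le_mul_of_nonneg_right (by linarith) (sq_nonneg _)
  refine h5.trans ?_
  have h6 : 7 * ((j : ℝ) ^ 6 * (3 ^ n * (P : ℝ) ^ 2)) * ((A : ℝ) / ((Q * (j ^ 2 * P) : ℕ) : ℝ)) ^ 2 =
      7 * (j : ℝ) ^ 2 * 3 ^ n * (A : ℝ) ^ 2 / (Q : ℝ) ^ 2 := by
    push_cast
    rw [div_pow, mul_pow, mul_pow, ← pow_mul]
    field_simp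
    ring
  rw [h6]
  exact div_le_self (by positivity) (one_le_pow₀ hQ1)

open Classical in
theorem cnt (k : ℤ) (hk : k ≠ 0) (w M A j : ℕ) (S : Finset ℕ) (hw : 6 * k.natAbs + 10 ≤ w) (hj : 1 ≤ j)
    (hjQ : Nat.Coprime j (QQ k w)) (hS : S ⊆ Pj w A j) (hT : QQ k w * (j ^ 2 * ∏ p ∈ S, p) ≤ A) :
    |(((AJ k w M A j).filter fun x => ∀ p ∈ S, (p : ℤ) ∣ nn k x.1 x.2.1 x.2.2).card : ℝ) -
      Mj k w A j * ∏ p ∈ S, bt k p| ≤ 7 * (j : ℝ) ^ 2 * 3 ^ S.card * (A : ℝ) ^ 2 := by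
  obtain ⟨Q, hQd⟩ : ∃ Q : ℕ, Q = QQ k w := ⟨_, rfl⟩
  obtain ⟨P, hPd⟩ : ∃ P : ℕ, P = ∏ p ∈ S, p := ⟨_, rfl⟩
  have hSp : ∀ p ∈ S, p.Prime := fun p hp => ((mem_Pj w A j p).1 (hS hp)).1
  have hQ0 : 0 < Q := by
    rw [hQd, QQ]
    have : 0 < k.natAbs := Int.natAbs_pos.2 hk
    have := w.factorial_pos
    positivity
  have hP0 : 0 < P := by
    rw [hPd]
    exact Finset.prod_pos fun p hp => (hSp p hp).pos
  have hj2 : 0 < j ^ 2 := by positivity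
  have c1 : Nat.Coprime Q (j ^ 2 * P) := by
    rw [hQd, hPd]
    refine Nat.Coprime.mul_right (hjQ.symm.pow_right 2) (Nat.Coprime.prod_right fun p hp => ?_)
    exact ((hSp p hp).coprime_iff_not_dvd.2 (Pj_QQ k hk w A j hw p (hS hp)).1).symm
  have c2 : Nat.Coprime (j ^ 2) P := by
    rw [hPd]
    refine Nat.Coprime.prod_right fun p hp => ?_
    exact (((hSp p hp).coprime_iff_not_dvd.2 ((mem_Pj w A j p).1 (hS hp)).2.2.1).symm).pow_left 2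
  have pcl : Per Q (fun a b c => Cl k w a b c) := by rw [hQd]; exact per_cl k w
  have pex := per_ex k j hj
  have pdv : Per P (fun a b c => ∀ p ∈ S, (p : ℤ) ∣ nn k a b c) := by
    rw [hPd]; exact per_dvd k S
  have p2 : Per (j ^ 2 * P) (fun a b c => Ex j (nn k a b c) ∧ ∀ p ∈ S, (p : ℤ) ∣ nn k a b c) :=
    per_and _ _ _ (per_mul _ _ _ pex (Dvd.intro _ rfl)) (per_mul _ _ _ pdv (Dvd.intro_left _ rfl))
  have p3 : Per (Q * (j ^ 2 * P)) (fun a b c => Cl k w a b c ∧ (Ex j (nn k a b c) ∧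
      ∀ p ∈ S, (p : ℤ) ∣ nn k a b c)) :=
    per_and _ _ _ (per_mul _ _ _ pcl (Dvd.intro _ rfl)) (per_mul _ _ _ p2 (Dvd.intro_left _ rfl))
  have hcc : (cc (Q * (j ^ 2 * P)) (fun a b c => Cl k w a b c ∧ (Ex j (nn k a b c) ∧
      ∀ p ∈ S, (p : ℤ) ∣ nn k a b c)) : ℝ) = Ej k j * ∏ p ∈ S, ((p : ℝ) ^ 3 * bt k p) := by
    rw [cc_mul Q (j ^ 2 * P) c1 hQ0 (Nat.mul_pos hj2 hP0) _ _ pcl p2,
      cc_mul (j ^ 2) P c2 hj2 hP0 _ _ pex pdv]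
    have e1 : cc Q (fun a b c => Cl k w a b c) = 1 := by rw [hQd]; exact cc_cl k w hk
    rw [e1, one_mul, Nat.cast_mul, ← cc_prod k S hSp, ← hPd]
    rfl
  have hbox := box_per k M A (Q * (j ^ 2 * P)) _ (by positivity) (by rw [hQd, hPd]; exact hT) p3
  rw [hcc] at hbox
  have hfil : (AJ k w M A j).filter (fun x => ∀ p ∈ S, (p : ℤ) ∣ nn k x.1 x.2.1 x.2.2) =
      (Bx k M A).filter (fun x => Cl k w x.1 x.2.1 x.2.2 ∧ (Ex j (nn k x.1 x.2.1 x.2.2) ∧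
        ∀ p ∈ S, (p : ℤ) ∣ nn k x.1 x.2.1 x.2.2)) := by
    ext x
    simp only [AJ, mem_filter]
    tauto
  rw [hfil]
  have hprod : ∏ p ∈ S, ((p : ℝ) ^ 3 * bt k p) = (P : ℝ) ^ 3 * ∏ p ∈ S, bt k p := by
    rw [prod_mul_distrib, prod_pow, hPd]; push_cast; rfl
  have e1 : (Ej k j : ℝ) ≤ (j : ℝ) ^ 6 := by
    have : Ej k j ≤ (j ^ 2) ^ 3 := cc_le _ _
    calc (Ej k j : ℝ) ≤ (((j ^ 2) ^ 3 : ℕ) : ℝ) := by exact_mod_cast this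
      _ = (j : ℝ) ^ 6 := by push_cast; ring
  have e2 : ∏ p ∈ S, ((p : ℝ) ^ 3 * bt k p) ≤ 3 ^ S.card * (P : ℝ) ^ 2 := by
    have : ∏ p ∈ S, ((p : ℝ) ^ 3 * bt k p) ≤ ∏ p ∈ S, (3 * (p : ℝ) ^ 2) := by
      refine prod_le_prod (fun p _ => mul_nonneg (by positivity) (bt_nonneg k p)) fun p hp => ?_
      have hp0 : (0 : ℝ) < p := by exact_mod_cast (hSp p hp).pos
      calc (p : ℝ) ^ 3 * bt k p ≤ (p : ℝ) ^ 3 * (3 / p) := by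
            gcongr
            exact bt_le3 k p (hSp p hp)
        _ = 3 * (p : ℝ) ^ 2 := by field_simp
    refine this.trans (le_of_eq ?_)
    rw [prod_mul_distrib, prod_pow, prod_const, hPd]; push_cast; rfl
  have e3 : 0 ≤ ∏ p ∈ S, ((p : ℝ) ^ 3 * bt k p) :=
    prod_nonneg fun p _ => mul_nonneg (by positivity) (bt_nonneg k p)
  rw [main_eq (Q := Q) (P := P) (A := A) (j := j) hQ0 hP0 hj hprod] at hbox
  rw [Mj, ← hQd]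
  refine le_of_eq_of_le ?_ (hbox.trans (err_le hQ0 hP0 hj e1 e2 e3))
  congr!

end H65.DR
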