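import Pool.Agent.H96.DR.Def
import Pool.Agent.H95.FL.Ex

/-!
# DR chapter S (MP_4d57ea_nt): Selberg's upper bound sieve and the lower bound for the norms. Definitions

`P = Pj w A j` the primes of the sieve, `bt k p` the density of `p ∣ nn`. Selberg's sieve in the language of `H95.FL` (`val`, `mean`, `vv`,
`prob`): `sel g P D` is the square of `lam g P D`, mean value `1 / Gs g P D`.
-/

set_option autoImplicit false

namespace H65.DR

open Finset H23.LP H96.DR Pool.Agent.H95.FL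

/-- the primes of the sieve: `w < p ≤ A ^ 0.0144`, `p ∤ j` -/
noncomputable def Pj (w A j : ℕ) : Finset ℕ :=
  (range (⌊(A : ℝ) ^ (0.0144 : ℝ)⌋₊ + 1)).filter fun p => p.Prime ∧ w < p ∧ ¬ p ∣ j

open Classical in
/-- the number of classes modulo `T` with the property `R` -/
noncomputable def cc (T : ℕ) (R : ℤ → ℤ → ℤ → Prop) : ℕ :=
  ((range T ×ˢ (range T ×ˢ range T)).filter fun x => R x.1 x.2.1 x.2.2).card

/-- `R` is periodic modulo `T` -/
def Per (T : ℕ) (R : ℤ → ℤ → ℤ → Prop) : Prop :=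
  ∀ a b c a' b' c' : ℤ, a ≡ a' [ZMOD (T : ℤ)] → b ≡ b' [ZMOD (T : ℤ)] → c ≡ c' [ZMOD (T : ℤ)] →
    (R a b c ↔ R a' b' c')

/-- density of `p ∣ nn` -/
noncomputable def bt (k : ℤ) (p : ℕ) : ℝ :=
  (cc p (fun a b c => (p : ℤ) ∣ nn k a b c) : ℝ) / (p : ℝ) ^ 3

/-- the number of classes modulo `j ^ 2` with exact divisor `j` of the norm -/
noncomputable def Ej (k : ℤ) (j : ℕ) : ℕ := cc (j ^ 2) (fun a b c => Ex j (nn k a b c))

/-- the main term of `#AJ` -/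
noncomputable def Mj (k : ℤ) (w A j : ℕ) : ℝ :=
  (Ej k j : ℝ) * (A : ℝ) ^ 3 / ((QQ k w : ℝ) ^ 3 * (j : ℝ) ^ 6)

/-- Selberg's `h = g / (1 - g)` -/
noncomputable def hh (g : ℕ → ℝ) (p : ℕ) : ℝ := g p / (1 - g p)

open Classical in
/-- Selberg's sum over the subsets of `P` with product `≤ D` -/
noncomputable def Gs (g : ℕ → ℝ) (P : Finset ℕ) (D : ℝ) : ℝ :=
  ∑ S ∈ P.powerset.filter fun S : Finset ℕ => ∏ p ∈ S, (p : ℝ) ≤ D, ∏ p ∈ S, hh g p

open Classical in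
/-- Selberg's weights -/
noncomputable def lam (g : ℕ → ℝ) (P : Finset ℕ) (D : ℝ) (S : Finset ℕ) : ℝ :=
  if S ⊆ P ∧ ∏ p ∈ S, (p : ℝ) ≤ D then
    (-1) ^ S.card * (∏ p ∈ S, (1 - g p))⁻¹ * Gs g (P \ S) (D / ∏ p ∈ S, (p : ℝ)) / Gs g P D
  else 0

/-- the square: `val (sel g P D) E = (val (lam g P D) E) ^ 2` -/
noncomputable def sel (g : ℕ → ℝ) (P : Finset ℕ) (D : ℝ) (S : Finset ℕ) : ℝ :=
  ∑ U ∈ S.powerset, ∑ V ∈ S.powerset, if U ∪ V = S then lam g P D U * lam g P D V else 0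

/-- the orthogonal functions of the model -/
noncomputable def chi (g : ℕ → ℝ) (R E : Finset ℕ) : ℝ :=
  ∏ p ∈ R, ((if p ∈ E then 1 else 0) - g p)

open Classical in
/-- the coefficients in the orthogonal basis -/
noncomputable def ys (g : ℕ → ℝ) (P : Finset ℕ) (D : ℝ) (R : Finset ℕ) : ℝ :=
  if ∏ p ∈ R, (p : ℝ) ≤ D then (-1) ^ R.card * (∏ p ∈ R, (1 - g p))⁻¹ / Gs g P D else 0

end H65.DR
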