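import Pool.Agent.H65.DR.Def

/-!
# [DR S La] Selberg's weights are bounded by one

Let `S ⊆ P`, `d = ∏ S ≤ D`, `h = hh g ≥ 0` on `P`, `G_S = Gs g (P \ S) (D / d)`. Claim `G = Gs g P D ≥ (∏_{p ∈ S} (1 + h p)) * G_S`, and
`1 + h p = (1 - g p)⁻¹`, so `|λ S| = (∏_S (1 - g))⁻¹ G_S / G ≤ 1` (`G > 0`: the term of `∅` is `1`).

Claim: the sets `U ∪ T`, `U ⊆ S`, `T ⊆ P \ S`, `∏ T ≤ D / d`, are pairwise different subsets of `P` (`U = (U ∪ T) ∩ S`, `T = (U ∪ T) \ S`) with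
`∏ (U ∪ T) = ∏ U ∏ T ≤ d * (D / d) = D` (`∏ U ≤ ∏ S = d` since all `p ≥ 1`) and `∏_{U ∪ T} h = ∏_U h * ∏_T h`; all terms are `≥ 0`. So
`G ≥ ∑_{U ⊆ S} ∏_U h * G_S`, and `∑_{U ⊆ S} ∏_U h = ∏_S (1 + h)` (`Finset.prod_one_add` / `Finset.prod_add_one`).
(`Finset.sum_le_sum_of_subset_of_nonneg` after `Finset.sum_image` for the map `(U, T) ↦ U ∪ T` on `S.powerset ×ˢ ((P \ S).powerset.filter ..)`.)
-/

set_option autoImplicit false

namespace H65.DR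

open Finset H23.LP H96.DR Pool.Agent.H95.FL

private theorem hh_nonneg {g : ℕ → ℝ} {p : ℕ} (h : 0 ≤ g p ∧ g p < 1) : 0 ≤ hh g p :=
  div_nonneg h.1 (by linarith [h.2])

private theorem one_add_hh {g : ℕ → ℝ} {p : ℕ} (h : 0 ≤ g p ∧ g p < 1) : (1 - g p)⁻¹ = 1 + hh g p := by
  have h1 : 1 - g p ≠ 0 := by linarith [h.2]
  unfold hh
  field_simp
  ring

private theorem Gs_nonneg {g : ℕ → ℝ} {P : Finset ℕ} (D : ℝ) (hg : ∀ p ∈ P, 0 ≤ g p ∧ g p < 1) :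
    0 ≤ Gs g P D := by
  refine sum_nonneg fun S hS => prod_nonneg fun p hp => hh_nonneg (hg p ?_)
  exact mem_powerset.1 (mem_filter.1 hS).1 hp

private theorem Gs_pos {g : ℕ → ℝ} {P : Finset ℕ} {D : ℝ} (hD : 1 ≤ D) (hg : ∀ p ∈ P, 0 ≤ g p ∧ g p < 1) :
    0 < Gs g P D := by
  have h1 : ∏ p ∈ (∅ : Finset ℕ), hh g p ≤ Gs g P D := by
    unfold Gs
    refine single_le_sum (f := fun S => ∏ p ∈ S, hh g p) (fun S hS => prod_nonneg fun p hp => hh_nonneg (hg p ?_)) ?_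
    · exact mem_powerset.1 (mem_filter.1 hS).1 hp
    · rw [mem_filter]
      refine ⟨empty_mem_powerset _, ?_⟩
      rw [prod_empty]
      exact hD
  rw [prod_empty] at h1
  linarith

theorem Gs_split (g : ℕ → ℝ) (P : Finset ℕ) (D : ℝ) (hP : ∀ p ∈ P, 1 ≤ p)
    (hg : ∀ p ∈ P, 0 ≤ g p ∧ g p < 1) (S : Finset ℕ) (hS : S ⊆ P) (hSD : ∏ p ∈ S, (p : ℝ) ≤ D) :
    (∏ p ∈ S, (1 - g p))⁻¹ * Gs g (P \ S) (D / ∏ p ∈ S, (p : ℝ)) ≤ Gs g P D := by
  classical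
  have h1 : (∏ p ∈ S, (1 - g p))⁻¹ = ∑ U ∈ S.powerset, ∏ p ∈ U, hh g p := by
    rw [← prod_inv_distrib, ← prod_one_add]
    exact prod_congr rfl fun p hp => one_add_hh (hg p (hS hp))
  have hd : ∀ U ⊆ S, ∏ p ∈ U, (p : ℝ) ≤ ∏ p ∈ S, (p : ℝ) := by
    intro U hU
    refine prod_le_prod_of_subset_of_one_le hU (fun p _ => Nat.cast_nonneg p) fun p hp _ => ?_
    exact_mod_cast hP p (hS hp)
  have hd0 : (0 : ℝ) < ∏ p ∈ S, (p : ℝ) := by
    refine prod_pos fun p hp => ?_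
    have := hP p (hS hp)
    exact_mod_cast this
  obtain ⟨Q, hQ⟩ : ∃ Q, Q = (P \ S).powerset.filter fun T : Finset ℕ =>
      ∏ p ∈ T, (p : ℝ) ≤ D / ∏ p ∈ S, (p : ℝ) := ⟨_, rfl⟩
  have hdis : ∀ x ∈ S.powerset ×ˢ Q, Disjoint x.1 x.2 := by
    intro x hx
    rw [mem_product, hQ, mem_filter, mem_powerset, mem_powerset] at hx
    exact disjoint_of_subset_left hx.1 (disjoint_of_subset_right hx.2.1 disjoint_sdiff)
  have hinj : Set.InjOn (fun x : Finset ℕ × Finset ℕ => x.1 ∪ x.2) (S.powerset ×ˢ Q : Finset _) := by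
    intro x hx y hy hxy
    have key : ∀ z ∈ S.powerset ×ˢ Q, (z.1 ∪ z.2) ∩ S = z.1 ∧ (z.1 ∪ z.2) \ S = z.2 := by
      intro z hz
      rw [mem_product, hQ, mem_filter, mem_powerset, mem_powerset] at hz
      have h3 : ∀ p ∈ z.2, p ∉ S := fun p hp => (mem_sdiff.1 (hz.2.1 hp)).2
      constructor
      · ext p
        rw [mem_inter, mem_union]
        constructor
        · rintro ⟨h4 | h4, h5⟩
          · exact h4
          · exact absurd h5 (h3 p h4)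
        · intro h4
          exact ⟨Or.inl h4, hz.1 h4⟩
      · ext p
        rw [mem_sdiff, mem_union]
        constructor
        · rintro ⟨h4 | h4, h5⟩
          · exact absurd (hz.1 h4) h5
          · exact h4
        · intro h4
          exact ⟨Or.inr h4, h3 p h4⟩
    have hx' := key x hx
    have hy' := key y hy
    have hxy' : x.1 ∪ x.2 = y.1 ∪ y.2 := hxy
    refine Prod.ext ?_ ?_
    · rw [← hx'.1, ← hy'.1, hxy']
    · rw [← hx'.2, ← hy'.2, hxy']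
  have h2 : (∏ p ∈ S, (1 - g p))⁻¹ * Gs g (P \ S) (D / ∏ p ∈ S, (p : ℝ)) =
      ∑ R ∈ (S.powerset ×ˢ Q).image (fun x : Finset ℕ × Finset ℕ => x.1 ∪ x.2), ∏ p ∈ R, hh g p := by
    rw [sum_image hinj, h1, Gs, sum_mul_sum, ← hQ, ← sum_product']
    refine sum_congr rfl fun x hx => ?_
    rw [prod_union (hdis x hx)]
  rw [h2]
  unfold Gs
  refine sum_le_sum_of_subset_of_nonneg ?_ ?_
  · intro R hR
    obtain ⟨x, hx, rfl⟩ := mem_image.1 hR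
    have hdx := hdis x hx
    rw [mem_product, hQ, mem_filter, mem_powerset, mem_powerset] at hx
    rw [mem_filter, mem_powerset]
    refine ⟨union_subset (hx.1.trans hS) (hx.2.1.trans sdiff_subset), ?_⟩
    rw [prod_union hdx]
    have h3 := hx.2.2
    rw [le_div_iff₀ hd0] at h3
    have h4 : (0 : ℝ) ≤ ∏ p ∈ x.2, (p : ℝ) := prod_nonneg fun p _ => Nat.cast_nonneg p
    calc (∏ p ∈ x.1, (p : ℝ)) * ∏ p ∈ x.2, (p : ℝ) ≤ (∏ p ∈ S, (p : ℝ)) * ∏ p ∈ x.2, (p : ℝ) :=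
          mul_le_mul_of_nonneg_right (hd _ hx.1) h4
      _ ≤ D := by
          rw [mul_comm]
          exact h3
  · intro R hR _
    refine prod_nonneg fun p hp => hh_nonneg (hg p ?_)
    exact mem_powerset.1 (mem_filter.1 hR).1 hp

theorem lam_abs (g : ℕ → ℝ) (P : Finset ℕ) (D : ℝ) (hD : 1 ≤ D) (hP : ∀ p ∈ P, 1 ≤ p)
    (hg : ∀ p ∈ P, 0 ≤ g p ∧ g p < 1) (S : Finset ℕ) : |lam g P D S| ≤ 1 := by
  unfold lam
  split_ifs with h
  · have h1 := Gs_split g P D hP hg S h.1 h.2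
    have h2 := Gs_pos hD hg
    have h3 : 0 ≤ Gs g (P \ S) (D / ∏ p ∈ S, (p : ℝ)) := Gs_nonneg _ fun p hp => hg p (mem_sdiff.1 hp).1
    have h4 : 0 ≤ (∏ p ∈ S, (1 - g p))⁻¹ := inv_nonneg.2 (prod_nonneg fun p hp => by linarith [(hg p (h.1 hp)).2])
    rw [abs_div, abs_mul, abs_mul, abs_pow, abs_neg, abs_one, one_pow, one_mul, abs_of_nonneg h4, abs_of_nonneg h3,
      abs_of_pos h2, div_le_one h2]
    exact h1
  · simp

end H65.DR
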