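import Pool.Agent.H65.DR.Def

/-!
# [DR S Sm] sums over sets of large primes

For `S ⊆ P`: `c ^ #S = ∏_{p ∈ S} c ≤ ∏_{p ∈ S} p ^ 0.1 = (∏ S) ^ 0.1 ≤ Y ^ 0.1` (`c ^ 10 ≤ p`, so `c ≤ p ^ 0.1`; `Real.finset_prod_rpow`). The number of `S ⊆ P` with `∏ S ≤ Y` is at most `⌊Y⌋₊ ≤ Y`: the map
`S ↦ ∏ S` is injective on sets of primes (`S = (∏ S).primeFactors`, `Nat.primeFactors_prod`) with values in `Icc 1 ⌊Y⌋₊`. So the sum is `≤ Y * Y ^ 0.1 = Y ^ 1.1`.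
-/

set_option autoImplicit false

namespace H65.DR

open Finset

open Classical in
theorem mass (c : ℕ) (hc : 1 ≤ c) (P : Finset ℕ) (hP : ∀ p ∈ P, p.Prime ∧ c ^ 10 ≤ p) (Y : ℝ) (hY : 1 ≤ Y) :
    ∑ S ∈ P.powerset.filter (fun S : Finset ℕ => ∏ p ∈ S, (p : ℝ) ≤ Y), (c : ℝ) ^ S.card ≤ Y ^ (1.1 : ℝ) := by
  set F := P.powerset.filter (fun S : Finset ℕ => ∏ p ∈ S, (p : ℝ) ≤ Y) with hF
  have hF' : ∀ S ∈ F, S ⊆ P ∧ ∏ p ∈ S, (p : ℝ) ≤ Y := by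
    intro S hS
    rw [hF, mem_filter, mem_powerset] at hS
    exact hS
  have h1 : ∀ S ∈ F, (c : ℝ) ^ S.card ≤ Y ^ (0.1 : ℝ) := by
    intro S hS
    obtain ⟨hS1, hS2⟩ := hF' S hS
    have h2 : (c : ℝ) ^ S.card ≤ (∏ p ∈ S, (p : ℝ)) ^ (0.1 : ℝ) := by
      rw [← Real.finsetProd_rpow _ _ (fun p _ => Nat.cast_nonneg p), ← Finset.prod_const]
      refine Finset.prod_le_prod (fun _ _ => Nat.cast_nonneg c) fun p hp => ?_
      have h3 := (hP p (hS1 hp)).2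
      have h4 : (c : ℝ) ^ (10 : ℕ) ≤ p := by exact_mod_cast h3
      calc (c : ℝ) = ((c : ℝ) ^ (10 : ℕ)) ^ (0.1 : ℝ) := by
            rw [← Real.rpow_natCast, ← Real.rpow_mul (Nat.cast_nonneg c)]; norm_num
        _ ≤ (p : ℝ) ^ (0.1 : ℝ) := Real.rpow_le_rpow (by positivity) h4 (by norm_num)
    exact h2.trans (Real.rpow_le_rpow (prod_nonneg fun p _ => Nat.cast_nonneg p) hS2 (by norm_num))
  have h5 : (F.card : ℝ) ≤ Y := by
    have h6 : F.card ≤ (Icc 1 ⌊Y⌋₊).card := by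
      refine Finset.card_le_card_of_injOn (fun S => ∏ p ∈ S, p) ?_ ?_
      · intro S hS
        obtain ⟨hS1, hS2⟩ := hF' S hS
        have h7 : 0 < ∏ p ∈ S, p := Finset.prod_pos fun p hp => (hP p (hS1 hp)).1.pos
        have h8 : ∏ p ∈ S, p ≤ ⌊Y⌋₊ := Nat.le_floor (by push_cast; exact hS2)
        simp only [coe_Icc, Set.mem_Icc]
        exact ⟨h7, h8⟩
      · intro S hS T hT h
        have hS1 := (hF' S hS).1
        have hT1 := (hF' T hT).1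
        have h9 := Nat.primeFactors_prod fun p hp => (hP p (hS1 hp)).1
        have h10 := Nat.primeFactors_prod fun p hp => (hP p (hT1 hp)).1
        simp only at h
        rw [← h9, ← h10, h]
    rw [Nat.card_Icc, Nat.add_sub_cancel] at h6
    calc (F.card : ℝ) ≤ (⌊Y⌋₊ : ℝ) := by exact_mod_cast h6
      _ ≤ Y := Nat.floor_le (by linarith)
  calc ∑ S ∈ F, (c : ℝ) ^ S.card ≤ ∑ _S ∈ F, Y ^ (0.1 : ℝ) := sum_le_sum h1
    _ = F.card * Y ^ (0.1 : ℝ) := by rw [sum_const, nsmul_eq_mul]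
    _ ≤ Y * Y ^ (0.1 : ℝ) := by
        apply mul_le_mul_of_nonneg_right h5 (by positivity)
    _ = Y ^ (1.1 : ℝ) := by
        nth_rewrite 1 [← Real.rpow_one Y]
        rw [← Real.rpow_add (by linarith)]
        norm_num

end H65.DR
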