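import Pool.Agent.H65.DR.Def

/-!
# [DR S Tn] the fundamental lemma `H95.FL.core` with `K = 2`, `B = 8`

* `tail_num`: `c = 4.44`, `n = 19`: `∑_{j<J} c^(n+2j)/(n+2j)! ≤ 1.06 c^n/n!` (consecutive terms have ratio `c² / ((n+2j+1)(n+2j+2)) ≤ 19.72 / 420 ≤ 0.047`; proof as `tl_sum` in `H95/FL/Tl.lean` with the exact remainder, ratio `r = 0.047`, `1/(1-r) ≤ 1.06`);
  `c^19 / 19! ≤ 1.65e-5` (`4.44 ^ 19 ≤ 1.998e12`, `19! = 121645100408832000`, `norm_num`), `exp 4.8 ≤ 122` (`exp 4.8 = exp 1 ^ 4 * exp 0.8`, `(exp 0.8)^5 = exp 1 ^ 4 ≤ 2.7182818286 ^ 4 ≤ 54.5982 ≤ 2.2305 ^ 5`, so `exp 0.8 ≤ 2.2305`);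
  `1.65e-5 * 1.06 * 122 ≤ 0.00214 ≤ 0.0025`.
* `fl_low`: `core 2` with `B = 8`, `η = 0.8496`, `a = 0.0144`, `d = 0.005` (`0.0144 * (3 * 8 + 5.5) = 0.4248 = η / 2`), `x = A`; `3 / p ≤ 2 * 2 / p`; take `A0 = ⌈x0⌉₊`; `0.8496 ≤ 0.85`. The coefficients `fl` of the sandwich `Sand` (all fields: `supp_l`, `lev_l`, `abs_l`, `empty_l`,
  `val_l`, `mean_l` with `1 - 0.005 = 0.995`) do not depend on `g`; the support, level, .. fields may be read from `Sand` for `g = 0`.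
-/

set_option autoImplicit false

namespace H65.DR

open Finset Pool.Agent.H95.FL

private theorem tn_exp : Real.exp 4.8 ≤ 122 := by
  have he : Real.exp 1 ≤ 2.7182818286 := Real.exp_one_lt_d9.le
  have he0 := Real.exp_pos 1
  have h4 : Real.exp 1 ^ 4 ≤ (2.7182818286 : ℝ) ^ 4 := pow_le_pow_left₀ he0.le he 4
  have h1 : Real.exp 0.8 ≤ 2.2305 := by
    have h2 : Real.exp 0.8 ^ 5 = Real.exp 1 ^ 4 := by
      rw [← Real.exp_nat_mul, ← Real.exp_nat_mul]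
      norm_num
    have h3 : Real.exp 0.8 ^ 5 ≤ (2.2305 : ℝ) ^ 5 := by
      rw [h2]
      refine h4.trans ?_
      norm_num
    exact (pow_le_pow_iff_left₀ (Real.exp_pos _).le (by norm_num) (by norm_num : (5 : ℕ) ≠ 0)).1 h3
  have h5 : Real.exp 4.8 = Real.exp 1 ^ 4 * Real.exp 0.8 := by
    rw [← Real.exp_nat_mul, ← Real.exp_add]
    norm_num
  rw [h5]
  calc Real.exp 1 ^ 4 * Real.exp 0.8 ≤ (2.7182818286 : ℝ) ^ 4 * 2.2305 :=
        mul_le_mul h4 h1 (Real.exp_pos _).le (by positivity)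
    _ ≤ 122 := by norm_num

private theorem tn_step (j : ℕ) : (4.44 : ℝ) ^ (19 + 2 * j) / ((19 + 2 * j).factorial : ℝ) ≤
    (0.047 : ℝ) ^ j * ((4.44 : ℝ) ^ 19 / (Nat.factorial 19 : ℝ)) := by
  induction j with
  | zero => simp
  | succ j ih =>
    have hf : (((19 + 2 * (j + 1)).factorial : ℕ) : ℝ) =
        (2 * (j : ℝ) + 21) * ((2 * (j : ℝ) + 20) * ((19 + 2 * j).factorial : ℝ)) := by
      have : 19 + 2 * (j + 1) = (19 + 2 * j + 1) + 1 := by ring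
      rw [this, Nat.factorial_succ, Nat.factorial_succ]
      push_cast
      ring
    have hj0 : (0 : ℝ) ≤ j := by positivity
    have hF : (0 : ℝ) < (19 + 2 * j).factorial := by positivity
    have hden : 0 < (2 * (j : ℝ) + 21) * (2 * (j : ℝ) + 20) := by positivity
    have h2 : (4.44 : ℝ) ^ 2 / ((2 * (j : ℝ) + 21) * (2 * (j : ℝ) + 20)) ≤ 0.047 := by
      rw [div_le_iff₀ hden]
      nlinarith
    calc (4.44 : ℝ) ^ (19 + 2 * (j + 1)) / (((19 + 2 * (j + 1)).factorial : ℕ) : ℝ)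
        = (4.44 : ℝ) ^ 2 / ((2 * (j : ℝ) + 21) * (2 * (j : ℝ) + 20)) *
          ((4.44 : ℝ) ^ (19 + 2 * j) / ((19 + 2 * j).factorial : ℝ)) := by
          rw [hf, show 19 + 2 * (j + 1) = (19 + 2 * j) + 2 by ring, pow_add]
          field_simp
      _ ≤ 0.047 * ((0.047 : ℝ) ^ j * ((4.44 : ℝ) ^ 19 / (Nat.factorial 19 : ℝ))) :=
          mul_le_mul h2 ih (by positivity) (by norm_num)
      _ = _ := by rw [pow_succ]; ring

private theorem tn_sum (J : ℕ) : ∑ j ∈ range J, (4.44 : ℝ) ^ (19 + 2 * j) / ((19 + 2 * j).factorial : ℝ) ≤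
    1.06 * ((4.44 : ℝ) ^ 19 / (Nat.factorial 19 : ℝ)) := by
  have h1 : ∑ j ∈ range J, (0.047 : ℝ) ^ j ≤ 1.06 := by
    rw [geom_sum_eq (by norm_num)]
    have h2 : (0 : ℝ) ≤ 0.047 ^ J := by positivity
    rw [div_le_iff_of_neg (by norm_num)]
    norm_num
    linarith
  calc ∑ j ∈ range J, (4.44 : ℝ) ^ (19 + 2 * j) / ((19 + 2 * j).factorial : ℝ)
      ≤ ∑ j ∈ range J, (0.047 : ℝ) ^ j * ((4.44 : ℝ) ^ 19 / (Nat.factorial 19 : ℝ)) :=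
        sum_le_sum fun j _ => tn_step j
    _ = (∑ j ∈ range J, (0.047 : ℝ) ^ j) * ((4.44 : ℝ) ^ 19 / (Nat.factorial 19 : ℝ)) := by rw [sum_mul]
    _ ≤ _ := mul_le_mul_of_nonneg_right h1 (by positivity)

theorem tail_num : ∀ J : ℕ, ∑ j ∈ range J, ((2.22 * ((2 : ℕ) : ℝ)) ^ (2 * (8 + j + 1) + 1) /
      (2 * (8 + j + 1) + 1).factorial * Real.exp (2.4 * ((2 : ℕ) : ℝ))) ≤ 0.005 / 2 := by
  intro J
  have h0 : ∑ j ∈ range J, ((2.22 * ((2 : ℕ) : ℝ)) ^ (2 * (8 + j + 1) + 1) /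
      (2 * (8 + j + 1) + 1).factorial * Real.exp (2.4 * ((2 : ℕ) : ℝ))) =
      (∑ j ∈ range J, (4.44 : ℝ) ^ (19 + 2 * j) / ((19 + 2 * j).factorial : ℝ)) * Real.exp 4.8 := by
    rw [sum_mul]
    refine sum_congr rfl fun j _ => ?_
    have e1 : 2 * (8 + j + 1) + 1 = 19 + 2 * j := by ring
    have e2 : (2.22 * ((2 : ℕ) : ℝ)) = 4.44 := by norm_num
    have e3 : (2.4 * ((2 : ℕ) : ℝ)) = 4.8 := by norm_num
    rw [e1, e2, e3]
  rw [h0]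
  calc _ ≤ (1.06 * ((4.44 : ℝ) ^ 19 / (Nat.factorial 19 : ℝ))) * 122 :=
        mul_le_mul (tn_sum J) tn_exp (Real.exp_pos _).le (by positivity)
    _ ≤ 0.005 / 2 := by
        have h1 : (Nat.factorial 19 : ℝ) = 121645100408832000 := by
          norm_num [Nat.factorial]
        rw [h1]
        norm_num

theorem fl_low : ∃ w0 A0 : ℕ, ∀ A : ℕ, A0 ≤ A → ∀ P : Finset ℕ,
    (∀ p ∈ P, p.Prime ∧ w0 < p ∧ (p : ℝ) ≤ (A : ℝ) ^ (0.0144 : ℝ)) →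
    ∃ fl : Finset ℕ → ℝ, (∀ S, fl S ≠ 0 → S ⊆ P ∧ ∏ p ∈ S, (p : ℝ) ≤ (A : ℝ) ^ (0.85 : ℝ)) ∧
      (∀ S, |fl S| ≤ 1) ∧ fl ∅ = 1 ∧ (∀ D, D ⊆ P → D.Nonempty → val fl D ≤ 0) ∧
      ∀ g : ℕ → ℝ, (∀ p ∈ P, 0 ≤ g p ∧ g p ≤ 3 / p) → 0.995 * vv g P ≤ mean g P fl := by
  obtain ⟨w0, -, hc⟩ := core 2 (by norm_num)
  obtain ⟨x0, hx0, h⟩ := hc 8 0.8496 0.0144 0.005 (by norm_num) (by norm_num) (by norm_num) (by norm_num)
    (by norm_num) tail_num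
  refine ⟨w0, ⌈x0⌉₊, fun A hA P hP => ?_⟩
  have hAx : x0 ≤ (A : ℝ) := (Nat.le_ceil x0).trans (by exact_mod_cast hA)
  obtain ⟨fl, fu, hs⟩ := h A hAx P hP
  have hz := hs (fun _ => 0) (fun p _ => ⟨le_refl _, by positivity⟩)
  have hA1 : (1 : ℝ) ≤ A := by linarith
  refine ⟨fl, fun S hS => ⟨?_, ?_⟩, hz.abs_l, hz.empty_l, hz.val_l, fun g hg => ?_⟩
  · by_contra hcon
    exact hS (hz.supp_l S hcon)
  · exact (hz.lev_l S hS).trans (Real.rpow_le_rpow_of_exponent_le hA1 (by norm_num))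
  · have h2 := (hs g fun p hp => ⟨(hg p hp).1, (hg p hp).2.trans (by
      push_cast
      exact div_le_div_of_nonneg_right (by norm_num) (Nat.cast_nonneg p))⟩).mean_l
    have h3 : (1 : ℝ) - 0.005 = 0.995 := by norm_num
    rwa [h3] at h2

end H65.DR
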