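import Pool.Agent.H65.DR.Ct
import Pool.Agent.H65.DR.Sm
import Pool.Agent.H65.DR.Tn

/-!
# [DR S Lo] lower bound for the number of rough norms in `AJ`

`w0 = max (w0 of fl_low) (6 |k| + 10) (3 ^ 10)`. `P = Pj w A j`, `z = A ^ 0.0144`, `D x = {p ∈ P : p ∣ nn x}`.
* `aj_val`: for `f` with `f S ≠ 0 → S ⊆ P`: `∑_{x ∈ AJ} val f (D x) = ∑_{S ⊆ P} f S * #{x ∈ AJ : ∀ p ∈ S, p ∣ nn x}` (exchange of sums: `S ⊆ D x ↔ S ⊆ P ∧ ∀ p ∈ S, p ∣ nn x`).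
* `aj_sum`: if moreover `f S ≠ 0 → ∏ S ≤ Y`, `|f S| ≤ c ^ #S` (`c : ℕ`, `c ≥ 1`), `Q j² Y ≤ A`, `(3 c) ^ 10 ≤ w`: by `cnt` the sum differs from `Mj * mean (bt k) P f` by at most
  `∑_{S ⊆ P, ∏ S ≤ Y} c^#S 7 j² 3^#S A² ≤ 7 j² A² Y ^ 1.1` (`mass` with `3 c`).
* `rough_of`: if `D x = ∅`, `x ∈ AJ`, then `|nn x| / j` is `z`-rough: a prime `p ∣ |nn|/j` with `p ≤ z`: `p ∣ nn` (`j ∣ nn`), `p > w` (by `nn_ne`, class modulo `Q`), `p ∤ j` (otherwise `p ∣ gcd (nn / j, j) = 1`), so `p ∈ D x`.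
* `low`: `#{rough} ≥ #{x : D x = ∅} ≥ ∑_x val fl (D x)` (`val fl ∅ = fl ∅ = 1`, `val fl D ≤ 0` for `D ≠ ∅`) `≥ Mj mean fl - 7 j² A² (A^0.85)^1.1 ≥ 0.995 Mj vv - 7 J² A^2.935` (`Mj ≥ 0`, `bt ≤ 3/p`), and `7 J² A^2.935 ≤ A^2.95`,
  `Q J² A^0.85 ≤ A` for large `A`.
-/

set_option autoImplicit false

namespace H65.DR

open Finset H23.LP H96.DR Pool.Agent.H95.FL

open Classical in
/-- the primes of `P` which divide the norm -/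
noncomputable def Dx (k : ℤ) (P : Finset ℕ) (x : ℤ × ℤ × ℤ) : Finset ℕ :=
  P.filter fun p => (p : ℤ) ∣ nn k x.1 x.2.1 x.2.2

theorem mem_Dx (k : ℤ) (P : Finset ℕ) (x : ℤ × ℤ × ℤ) (p : ℕ) :
    p ∈ Dx k P x ↔ p ∈ P ∧ (p : ℤ) ∣ nn k x.1 x.2.1 x.2.2 := by
  classical
  simp only [Dx, mem_filter]

open Classical in
theorem aj_val (k : ℤ) (w M A j : ℕ) (P : Finset ℕ) (f : Finset ℕ → ℝ) (hf : ∀ S, f S ≠ 0 → S ⊆ P) :
    ∑ x ∈ AJ k w M A j, val f (Dx k P x) = ∑ S ∈ P.powerset, f S *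
      (((AJ k w M A j).filter fun x => ∀ p ∈ S, (p : ℤ) ∣ nn k x.1 x.2.1 x.2.2).card : ℝ) := by
  have hval : ∀ x : ℤ × ℤ × ℤ, val f (Dx k P x) =
      ∑ S ∈ P.powerset, if (∀ p ∈ S, (p : ℤ) ∣ nn k x.1 x.2.1 x.2.2) then f S else 0 := by
    intro x
    unfold Pool.Agent.H95.FL.val
    rw [← sum_filter]
    apply sum_congr _ fun _ _ => rfl
    ext S
    simp only [mem_powerset, mem_filter]
    constructor
    · intro hS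
      exact ⟨fun p hp => ((mem_Dx k P x p).1 (hS hp)).1, fun p hp => ((mem_Dx k P x p).1 (hS hp)).2⟩
    · rintro ⟨hS, hS2⟩ p hp
      exact (mem_Dx k P x p).2 ⟨hS hp, hS2 p hp⟩
  simp_rw [hval]
  rw [sum_comm]
  apply sum_congr rfl
  intro S _
  rw [← sum_filter, sum_const, nsmul_eq_mul, mul_comm]
  congr!

theorem aj_sum (k : ℤ) (hk : k ≠ 0) (w M A j c : ℕ) (Y : ℝ) (hY : 1 ≤ Y) (hc : 1 ≤ c)
    (hw : 6 * k.natAbs + 10 ≤ w) (hwc : (3 * c) ^ 10 ≤ w) (hj : 1 ≤ j) (hjQ : Nat.Coprime j (QQ k w))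
    (hYA : (QQ k w : ℝ) * (j : ℝ) ^ 2 * Y ≤ A) (f : Finset ℕ → ℝ)
    (hf : ∀ S, f S ≠ 0 → S ⊆ Pj w A j ∧ ∏ p ∈ S, (p : ℝ) ≤ Y) (hfc : ∀ S, |f S| ≤ (c : ℝ) ^ S.card) :
    |∑ x ∈ AJ k w M A j, val f (Dx k (Pj w A j) x) - Mj k w A j * mean (bt k) (Pj w A j) f| ≤
      7 * (j : ℝ) ^ 2 * (A : ℝ) ^ 2 * Y ^ (1.1 : ℝ) := by
  classical
  set P := Pj w A j with hP
  rw [aj_val k w M A j P f fun S hS => (hf S hS).1]
  have h1 : Mj k w A j * mean (bt k) P f = ∑ S ∈ P.powerset, f S * (Mj k w A j * ∏ p ∈ S, bt k p) := by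
    unfold mean
    rw [mul_sum]
    apply sum_congr rfl
    intro S _
    ring
  rw [h1, ← sum_sub_distrib]
  refine (abs_sum_le_sum_abs _ _).trans ?_
  have h2 : ∀ S ∈ P.powerset, |f S * (((AJ k w M A j).filter fun x => ∀ p ∈ S, (p : ℤ) ∣ nn k x.1 x.2.1 x.2.2).card : ℝ) -
      f S * (Mj k w A j * ∏ p ∈ S, bt k p)| ≤
      if ∏ p ∈ S, (p : ℝ) ≤ Y then 7 * (j : ℝ) ^ 2 * (A : ℝ) ^ 2 * ((3 * c : ℕ) : ℝ) ^ S.card else 0 := by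
    intro S hS
    rw [mem_powerset] at hS
    by_cases hf0 : f S = 0
    · rw [hf0]
      simp only [zero_mul, sub_zero, abs_zero]
      split_ifs
      · positivity
      · exact le_rfl
    · obtain ⟨hS1, hS2⟩ := hf S hf0
      rw [if_pos hS2, ← mul_sub, abs_mul]
      have h3 : QQ k w * (j ^ 2 * ∏ p ∈ S, p) ≤ A := by
        have h4 : ((QQ k w * (j ^ 2 * ∏ p ∈ S, p) : ℕ) : ℝ) ≤ (A : ℝ) := by
          push_cast
          calc (QQ k w : ℝ) * ((j : ℝ) ^ 2 * ∏ p ∈ S, (p : ℝ)) = (QQ k w : ℝ) * (j : ℝ) ^ 2 * ∏ p ∈ S, (p : ℝ) := by ring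
            _ ≤ (QQ k w : ℝ) * (j : ℝ) ^ 2 * Y := mul_le_mul_of_nonneg_left hS2 (by positivity)
            _ ≤ A := hYA
        exact_mod_cast h4
      have h5 := cnt k hk w M A j S hw hj hjQ hS h3
      calc |f S| * |(((AJ k w M A j).filter fun x => ∀ p ∈ S, (p : ℤ) ∣ nn k x.1 x.2.1 x.2.2).card : ℝ) -
            Mj k w A j * ∏ p ∈ S, bt k p| ≤ (c : ℝ) ^ S.card * (7 * (j : ℝ) ^ 2 * 3 ^ S.card * (A : ℝ) ^ 2) :=
            mul_le_mul (hfc S) h5 (abs_nonneg _) (by positivity)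
        _ = 7 * (j : ℝ) ^ 2 * (A : ℝ) ^ 2 * ((3 * c : ℕ) : ℝ) ^ S.card := by
            push_cast
            rw [mul_pow]
            ring
  refine (sum_le_sum h2).trans ?_
  rw [← sum_filter, ← mul_sum]
  apply mul_le_mul_of_nonneg_left _ (by positivity)
  apply mass (3 * c) (by omega) P _ Y hY
  intro p hp
  have h6 := (mem_Pj w A j p).1 hp
  exact ⟨h6.1, hwc.trans h6.2.1.le⟩

theorem rough_of (k : ℤ) (w M A j : ℕ) (hj : 1 ≤ j) (x : ℤ × ℤ × ℤ) (hx : x ∈ AJ k w M A j)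
    (hD : Dx k (Pj w A j) x = ∅) :
    Rough ((A : ℝ) ^ (0.0144 : ℝ)) ((nn k x.1 x.2.1 x.2.2).natAbs / j) := by
  classical
  intro p hp hpd
  by_contra hlt
  rw [not_lt] at hlt
  unfold AJ at hx
  rw [mem_filter] at hx
  obtain ⟨-, hcl, hdv, hco⟩ := hx
  set n := nn k x.1 x.2.1 x.2.2 with hn
  have hjn : j ∣ n.natAbs := by
    have := Int.natAbs_dvd_natAbs.2 hdv
    simpa using this
  have hpn : p ∣ n.natAbs := hpd.trans (Nat.div_dvd_of_dvd hjn)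
  have hpn' : (p : ℤ) ∣ n := Int.natCast_dvd.2 hpn
  have hpw : w < p := by
    by_contra h
    exact (nn_ne k w _ _ _ hcl p hp (not_lt.1 h)).2 hpn'
  have hpj : ¬ p ∣ j := by
    intro h
    have h1 : (p : ℤ) ∣ n / (j : ℤ) := by
      rw [Int.natCast_dvd]
      have h2 : (n / (j : ℤ)).natAbs = n.natAbs / j := by
        rw [Int.natAbs_ediv_of_dvd hdv, Int.natAbs_natCast]
      rw [h2]
      exact hpd
    have h3 : (p : ℤ) ∣ (Int.gcd (n / (j : ℤ)) (j : ℤ) : ℤ) :=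
      Int.dvd_coe_gcd h1 (Int.natCast_dvd_natCast.2 h)
    rw [hco] at h3
    have h4 : p ∣ 1 := by exact_mod_cast h3
    exact hp.one_lt.ne' (Nat.dvd_one.1 h4)
  have h5 : p ∈ Dx k (Pj w A j) x := (mem_Dx k _ x p).2 ⟨(mem_Pj w A j p).2 ⟨hp, hpw, hpj, hlt⟩, hpn'⟩
  rw [hD] at h5
  simp at h5

open Classical in
theorem low (k : ℤ) (hk : k ≠ 0) : ∃ w0 : ℕ, ∀ w : ℕ, w0 ≤ w → ∀ M J : ℕ, ∃ A0 : ℕ, ∀ A : ℕ, A0 ≤ A →
    ∀ j : ℕ, 1 ≤ j → j ≤ J → Nat.Coprime j (QQ k w) →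
      0.995 * (Mj k w A j * vv (bt k) (Pj w A j)) - (A : ℝ) ^ (2.95 : ℝ) ≤
        (((AJ k w M A j).filter fun x =>
          Rough ((A : ℝ) ^ (0.0144 : ℝ)) ((nn k x.1 x.2.1 x.2.2).natAbs / j)).card : ℝ) := by
  obtain ⟨w1, A1, hfl⟩ := fl_low
  refine ⟨max w1 (max (6 * k.natAbs + 10) ((3 * 1) ^ 10)), ?_⟩
  intro w hw M J
  have hw1 : w1 ≤ w := (le_max_left _ _).trans hw
  have hw2 : 6 * k.natAbs + 10 ≤ w := ((le_max_left _ _).trans (le_max_right _ _)).trans hw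
  have hw3 : (3 * 1) ^ 10 ≤ w := ((le_max_right _ _).trans (le_max_right _ _)).trans hw
  -- growth
  have ht : Filter.Tendsto (fun A : ℕ => (A : ℝ) ^ (0.015 : ℝ)) Filter.atTop Filter.atTop :=
    (tendsto_rpow_atTop (by norm_num)).comp tendsto_natCast_atTop_atTop
  obtain ⟨A2, hA2⟩ := Filter.eventually_atTop.1 (ht.eventually_ge_atTop (max (7 * (J : ℝ) ^ 2) ((QQ k w : ℝ) * (J : ℝ) ^ 2)))
  refine ⟨max (max A1 A2) 1, ?_⟩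
  intro A hA j hj hjJ hjQ
  have hAA1 : A1 ≤ A := ((le_max_left _ _).trans (le_max_left _ _)).trans hA
  have hAA2 : A2 ≤ A := ((le_max_right _ _).trans (le_max_left _ _)).trans hA
  have hAA3 : 1 ≤ A := (le_max_right _ _).trans hA
  have hA1r : (1 : ℝ) ≤ A := by exact_mod_cast hAA3
  have hA0 : (0 : ℝ) < A := by linarith
  have hgr := hA2 A hAA2
  have hg1 : 7 * (J : ℝ) ^ 2 ≤ (A : ℝ) ^ (0.015 : ℝ) := (le_max_left _ _).trans hgr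
  have hg2 : (QQ k w : ℝ) * (J : ℝ) ^ 2 ≤ (A : ℝ) ^ (0.015 : ℝ) := (le_max_right _ _).trans hgr
  have hjJ' : (j : ℝ) ≤ J := by exact_mod_cast hjJ
  have hj0 : (0 : ℝ) ≤ j := Nat.cast_nonneg _
  have hj2 : (j : ℝ) ^ 2 ≤ (J : ℝ) ^ 2 := pow_le_pow_left₀ hj0 hjJ' 2
  set P := Pj w A j with hP
  have hPm : ∀ p ∈ P, p.Prime ∧ w1 < p ∧ (p : ℝ) ≤ (A : ℝ) ^ (0.0144 : ℝ) := by
    intro p hp
    have h := (mem_Pj w A j p).1 hp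
    exact ⟨h.1, lt_of_le_of_lt hw1 h.2.1, h.2.2.2⟩
  obtain ⟨fl, hsupp, habs, hempty, hval, hmean⟩ := hfl A hAA1 P hPm
  have hm := hmean (bt k) fun p hp => ⟨bt_nonneg k p, bt_le3 k p (hPm p hp).1⟩
  have hY : 1 ≤ (A : ℝ) ^ (0.85 : ℝ) := Real.one_le_rpow hA1r (by norm_num)
  have hYA : (QQ k w : ℝ) * (j : ℝ) ^ 2 * (A : ℝ) ^ (0.85 : ℝ) ≤ A := by
    calc (QQ k w : ℝ) * (j : ℝ) ^ 2 * (A : ℝ) ^ (0.85 : ℝ) ≤ (QQ k w : ℝ) * (J : ℝ) ^ 2 * (A : ℝ) ^ (0.85 : ℝ) := by gcongr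
      _ ≤ (A : ℝ) ^ (0.015 : ℝ) * (A : ℝ) ^ (0.85 : ℝ) := by gcongr
      _ = (A : ℝ) ^ (0.865 : ℝ) := by rw [← Real.rpow_add hA0]; norm_num
      _ ≤ (A : ℝ) ^ (1 : ℝ) := Real.rpow_le_rpow_of_exponent_le hA1r (by norm_num)
      _ = A := Real.rpow_one _
  have hsum := aj_sum k hk w M A j 1 ((A : ℝ) ^ (0.85 : ℝ)) hY le_rfl hw2 hw3 hj hjQ hYA fl hsupp
    (fun S => by simpa using habs S)
  rw [← hP] at hsum
  have hMj : 0 ≤ Mj k w A j := by unfold Mj; positivity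
  -- lower bound of the number of rough elements
  have hcard : ∑ x ∈ AJ k w M A j, val fl (Dx k P x) ≤
      (((AJ k w M A j).filter fun x =>
          Rough ((A : ℝ) ^ (0.0144 : ℝ)) ((nn k x.1 x.2.1 x.2.2).natAbs / j)).card : ℝ) := by
    have h1 : (((AJ k w M A j).filter fun x =>
          Rough ((A : ℝ) ^ (0.0144 : ℝ)) ((nn k x.1 x.2.1 x.2.2).natAbs / j)).card : ℝ) =
        ∑ x ∈ AJ k w M A j, if Rough ((A : ℝ) ^ (0.0144 : ℝ)) ((nn k x.1 x.2.1 x.2.2).natAbs / j) then (1 : ℝ) else 0 := by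
      rw [← sum_filter, sum_const, nsmul_eq_mul, mul_one]
    rw [h1]
    refine sum_le_sum fun x hx => ?_
    by_cases hDe : Dx k P x = ∅
    · rw [if_pos (rough_of k w M A j hj x hx hDe), hDe]
      have : Pool.Agent.H95.FL.val fl ∅ = 1 := by simp [Pool.Agent.H95.FL.val, hempty]
      rw [this]
    · have h2 := hval (Dx k P x) (fun p hp => ((mem_Dx k P x p).1 hp).1) (nonempty_iff_ne_empty.2 hDe)
      split_ifs <;> linarith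
  have herr : 7 * (j : ℝ) ^ 2 * (A : ℝ) ^ 2 * ((A : ℝ) ^ (0.85 : ℝ)) ^ (1.1 : ℝ) ≤ (A : ℝ) ^ (2.95 : ℝ) := by
    calc 7 * (j : ℝ) ^ 2 * (A : ℝ) ^ 2 * ((A : ℝ) ^ (0.85 : ℝ)) ^ (1.1 : ℝ)
        ≤ 7 * (J : ℝ) ^ 2 * (A : ℝ) ^ 2 * ((A : ℝ) ^ (0.85 : ℝ)) ^ (1.1 : ℝ) := by gcongr
      _ ≤ (A : ℝ) ^ (0.015 : ℝ) * (A : ℝ) ^ 2 * ((A : ℝ) ^ (0.85 : ℝ)) ^ (1.1 : ℝ) := by gcongr
      _ = (A : ℝ) ^ (2.95 : ℝ) := by
          rw [← Real.rpow_mul hA0.le, ← Real.rpow_natCast (A : ℝ) 2, ← Real.rpow_add hA0, ← Real.rpow_add hA0]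
          norm_num
  have h3 := (abs_le.1 hsum).1
  have h4 : 0.995 * (Mj k w A j * vv (bt k) P) ≤ Mj k w A j * mean (bt k) P fl := by
    have := mul_le_mul_of_nonneg_left hm hMj
    calc 0.995 * (Mj k w A j * vv (bt k) P) = Mj k w A j * (0.995 * vv (bt k) P) := by ring
      _ ≤ _ := this
  linarith

end H65.DR
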