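import Pool.Agent.H65.DR.Def
import Pool.Agent.H95.FL.Md

/-!
# [DR S Or] orthogonality and the mean value of Selberg's square

* `chi_orth`. For `E ⊆ P` write every product over `P`: `prob g P E * chi g R E * chi g R' E = ∏_{p ∈ P} F p (p ∈ E)` with
  `F p True = g p * (if p ∈ R then 1 - g p else 1) * (if p ∈ R' then 1 - g p else 1)`, `F p False = (1 - g p) * (if p ∈ R then - g p else 1) * (if p ∈ R' then - g p else 1)`.
  `∑_{E ⊆ P} ∏_{p ∈ E} F p True * ∏_{p ∈ P \ E} F p False = ∏_{p ∈ P} (F p True + F p False)` (`Finset.prod_add`, see `prob_sup` in `H95/FL/Md.lean` for the same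
  argument). The factor is `1` for `p ∉ R, R'`; `g (1 - g)^2 + (1 - g) g^2 = g (1 - g)` for `p ∈ R ∩ R'`; `g (1 - g) - (1 - g) g = 0` if `p` is in exactly one. If `R ≠ R'`
  such a `p ∈ P` exists, the product is `0`; if `R = R'` it is `∏_R g (1 - g)`.
* `val_chi`: for `R ⊆ P`: `chi g R E = ∑_{U ⊆ R ∩ E} ∏_{p ∈ R \ U} (- g p)` (`Finset.prod_add`: `∏_{p ∈ R} (a p + b p) = ∑_{U ⊆ R} ∏_U a ∏_{R \ U} b` with `a p = if p ∈ E then 1 else 0`,
  `b p = - g p`).
* `lam_ys`: for `U ⊆ P`: `λ U = ∑_{R ⊆ P, U ⊆ R} ys R * ∏_{p ∈ R \ U} (- g p)`: write `R = U ∪ T`, `T ⊆ P \ U` (bijection `R ↦ R \ U`): `(-1)^#R (∏_R (1-g))⁻¹ ∏_{T} (-g) =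
  (-1)^#U (∏_U (1 - g))⁻¹ ∏_T h` and `∏ R ≤ D ↔ ∏ T ≤ D / ∏ U` (`∏ U > 0`). If `∏ U > D` both sides are `0` (`∏ R ≥ ∏ U`, all `p ≥ 1`).
* `val_lam`: `val λ E = ∑_{U ⊆ E} λ U` (`E ⊆ P`) `= ∑_{R ⊆ P} ys R ∑_{U ⊆ R ∩ E} ∏_{R \ U} (-g) = ∑_R ys R * chi R E`.
* `mean_sel`: by `mean_model` (module Md) `mean g P (sel ..) = ∑_{E ⊆ P} prob E * val (sel ..) E`, here `hv : val (sel ..) E = (val λ E)^2` is given as a hypothesis (module Sq);
  `= ∑_{R, R'} ys R ys R' ∑_E prob E chi R E chi R' E = ∑_R ys R ^ 2 ∏_R g (1 - g) = ∑_{∏ R ≤ D} ∏_R (g (1 - g) / (1 - g)^2) / G ^ 2 = G / G ^ 2 = 1 / G`.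
-/

set_option autoImplicit false

namespace H65.DR

open Finset H23.LP H96.DR Pool.Agent.H95.FL

private theorem or_ext (P R : Finset ℕ) (hR : R ⊆ P) (f : ℕ → ℝ) :
    ∏ p ∈ R, f p = ∏ p ∈ P, if p ∈ R then f p else 1 := by
  rw [prod_ite_mem, inter_eq_right.2 hR]

private theorem or_chi (g : ℕ → ℝ) (P R E : Finset ℕ) (hR : R ⊆ P) (hE : E ⊆ P) :
    chi g R E = (∏ p ∈ E, if p ∈ R then 1 - g p else 1) * ∏ p ∈ P \ E, if p ∈ R then -g p else 1 := by
  unfold chi
  rw [or_ext P R hR, ← prod_sdiff hE, mul_comm]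
  congr 1
  · refine prod_congr rfl fun p hp => ?_
    rw [if_pos hp]
  · refine prod_congr rfl fun p hp => ?_
    rw [if_neg (mem_sdiff.1 hp).2, zero_sub]

theorem chi_orth (g : ℕ → ℝ) (P R R' : Finset ℕ) (hR : R ⊆ P) (hR' : R' ⊆ P) :
    ∑ E ∈ P.powerset, prob g P E * (chi g R E * chi g R' E) =
      if R = R' then ∏ p ∈ R, (g p * (1 - g p)) else 0 := by
  have h1 := prod_add (fun p : ℕ => g p * (if p ∈ R then 1 - g p else 1) * (if p ∈ R' then 1 - g p else 1))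
    (fun p : ℕ => (1 - g p) * (if p ∈ R then -g p else 1) * (if p ∈ R' then -g p else 1)) P
  have h2 : ∑ E ∈ P.powerset, prob g P E * (chi g R E * chi g R' E) =
      ∏ p ∈ P, ((g p * (if p ∈ R then 1 - g p else 1) * (if p ∈ R' then 1 - g p else 1)) +
        ((1 - g p) * (if p ∈ R then -g p else 1) * (if p ∈ R' then -g p else 1))) := by
    rw [h1]
    refine sum_congr rfl fun E hE => ?_
    rw [mem_powerset] at hE
    rw [or_chi g P R E hR hE, or_chi g P R' E hR' hE]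
    unfold prob
    simp only [prod_mul_distrib]
    ring
  rw [h2]
  split_ifs with h
  · subst h
    rw [or_ext P R hR]
    refine prod_congr rfl fun p _ => ?_
    split_ifs <;> ring
  · have h3 : ∃ p ∈ P, (p ∈ R ∧ p ∉ R') ∨ (p ∉ R ∧ p ∈ R') := by
      by_contra hcon
      push Not at hcon
      apply h
      ext p
      constructor
      · intro hp
        exact (hcon p (hR hp)).1 hp
      · intro hp
        by_contra hp'
        exact (hcon p (hR' hp)).2 hp' hp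
    obtain ⟨p, hp, h4⟩ := h3
    refine prod_eq_zero hp ?_
    rcases h4 with ⟨h5, h6⟩ | ⟨h5, h6⟩
    · rw [if_pos h5, if_neg h6, if_pos h5, if_neg h6]
      ring
    · rw [if_neg h5, if_pos h6, if_neg h5, if_pos h6]
      ring

theorem val_chi (g : ℕ → ℝ) (R E : Finset ℕ) :
    chi g R E = ∑ U ∈ (R ∩ E).powerset, ∏ p ∈ R \ U, (-g p) := by
  unfold chi
  have h1 := prod_add (fun p : ℕ => if p ∈ E then (1 : ℝ) else 0) (fun p => -g p) R
  have h2 : ∏ p ∈ R, ((if p ∈ E then (1 : ℝ) else 0) - g p) =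
      ∏ p ∈ R, ((if p ∈ E then (1 : ℝ) else 0) + -g p) := by
    refine prod_congr rfl fun p _ => ?_
    rw [sub_eq_add_neg]
  rw [h2, h1]
  have h3 : (R ∩ E).powerset = R.powerset.filter fun U => U ⊆ E := by
    ext U
    rw [mem_powerset, mem_filter, mem_powerset, subset_inter_iff]
  rw [h3, sum_filter]
  refine sum_congr rfl fun U _ => ?_
  split_ifs with h
  · rw [prod_eq_one fun p hp => if_pos (h hp), one_mul]
  · rw [not_subset] at h
    obtain ⟨p, hp, hpE⟩ := h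
    rw [prod_eq_zero hp (if_neg hpE), zero_mul]

private theorem or_sign (g : ℕ → ℝ) (T : Finset ℕ) :
    (-1 : ℝ) ^ T.card * ∏ p ∈ T, (-g p) = ∏ p ∈ T, g p := by
  rw [← prod_const, ← prod_mul_distrib]
  refine prod_congr rfl fun p _ => ?_
  ring

private theorem or_sum (U P : Finset ℕ) (hU : U ⊆ P) (F : Finset ℕ → ℝ) :
    (∑ R ∈ P.powerset, if U ⊆ R then F R else 0) = ∑ T ∈ (P \ U).powerset, F (U ∪ T) := by
  rw [← sum_filter]
  refine sum_nbij' (fun R => R \ U) (fun T => U ∪ T) ?_ ?_ ?_ ?_ ?_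
  · intro R hR
    rw [mem_filter, mem_powerset] at hR
    rw [mem_powerset]
    exact sdiff_subset_sdiff hR.1 Subset.rfl
  · intro T hT
    rw [mem_powerset] at hT
    rw [mem_filter, mem_powerset]
    exact ⟨union_subset hU (hT.trans sdiff_subset), subset_union_left⟩
  · intro R hR
    rw [mem_filter] at hR
    exact union_sdiff_of_subset hR.2
  · intro T hT
    rw [mem_powerset] at hT
    rw [union_sdiff_cancel_left]
    rw [disjoint_left]
    intro p hp hpT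
    exact (mem_sdiff.1 (hT hpT)).2 hp
  · intro R hR
    rw [mem_filter] at hR
    rw [union_sdiff_of_subset hR.2]

theorem lam_ys (g : ℕ → ℝ) (P : Finset ℕ) (D : ℝ) (hP : ∀ p ∈ P, 1 ≤ p) (hg : ∀ p ∈ P, 0 ≤ g p ∧ g p < 1)
    (U : Finset ℕ) (hU : U ⊆ P) :
    lam g P D U = ∑ R ∈ P.powerset, if U ⊆ R then ys g P D R * ∏ p ∈ R \ U, (-g p) else 0 := by
  rw [or_sum U P hU fun R => ys g P D R * ∏ p ∈ R \ U, (-g p)]
  have hUpos : (0 : ℝ) < ∏ p ∈ U, (p : ℝ) := prod_pos fun p hp => by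
    have := hP p (hU hp)
    positivity
  have hdis : ∀ T ∈ (P \ U).powerset, Disjoint U T := by
    intro T hT
    rw [mem_powerset] at hT
    rw [disjoint_left]
    intro p hp hpT
    exact (mem_sdiff.1 (hT hpT)).2 hp
  unfold lam
  split_ifs with h
  · unfold Gs
    rw [sum_filter, mul_sum, sum_div]
    refine sum_congr rfl fun T hT => ?_
    have hd := hdis T hT
    rw [union_sdiff_cancel_left hd]
    unfold ys
    have h1 : (∏ p ∈ U ∪ T, (p : ℝ) ≤ D) ↔ ∏ p ∈ T, (p : ℝ) ≤ D / ∏ p ∈ U, (p : ℝ) := by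
      rw [prod_union hd, le_div_iff₀ hUpos, mul_comm]
    by_cases h2 : ∏ p ∈ T, (p : ℝ) ≤ D / ∏ p ∈ U, (p : ℝ)
    · rw [if_pos h2, if_pos (h1.2 h2), card_union_of_disjoint hd, prod_union hd, pow_add, mul_inv]
      have h3 : ∏ p ∈ T, hh g p = (∏ p ∈ T, g p) * (∏ p ∈ T, (1 - g p))⁻¹ := by
        unfold hh
        rw [prod_div_distrib, div_eq_mul_inv]
      rw [h3, ← or_sign g T]
      unfold Gs
      ring
    · rw [if_neg h2, if_neg fun h3 => h2 (h1.1 h3), mul_zero, zero_div, zero_mul]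
  · symm
    refine sum_eq_zero fun T hT => ?_
    have hd := hdis T hT
    unfold ys
    rw [if_neg, zero_mul]
    intro h1
    apply h
    refine ⟨hU, le_trans ?_ h1⟩
    rw [prod_union hd]
    refine le_mul_of_one_le_right hUpos.le ?_
    have h5 : ∀ p ∈ T, (1 : ℝ) ≤ p := by
      intro p hp
      have := hP p (sdiff_subset (mem_powerset.1 hT hp))
      exact_mod_cast this
    calc (1 : ℝ) = ∏ p ∈ T, (1 : ℝ) := by simp
      _ ≤ ∏ p ∈ T, (p : ℝ) := prod_le_prod (fun _ _ => zero_le_one) h5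

theorem val_lam (g : ℕ → ℝ) (P : Finset ℕ) (D : ℝ) (hP : ∀ p ∈ P, 1 ≤ p)
    (hg : ∀ p ∈ P, 0 ≤ g p ∧ g p < 1) (E : Finset ℕ) (hE : E ⊆ P) :
    val (lam g P D) E = ∑ R ∈ P.powerset, ys g P D R * chi g R E := by
  unfold Pool.Agent.H95.FL.val
  rw [sum_congr rfl fun U hU => lam_ys g P D hP hg U ((mem_powerset.1 hU).trans hE), sum_comm]
  refine sum_congr rfl fun R _ => ?_
  rw [val_chi, mul_sum]
  have h3 : (R ∩ E).powerset = E.powerset.filter fun U => U ⊆ R := by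
    ext U
    rw [mem_powerset, mem_filter, mem_powerset, subset_inter_iff, and_comm]
  rw [h3, sum_filter]

theorem mean_sel (g : ℕ → ℝ) (P : Finset ℕ) (D : ℝ) (hD : 1 ≤ D) (hP : ∀ p ∈ P, 1 ≤ p)
    (hg : ∀ p ∈ P, 0 ≤ g p ∧ g p < 1) (hG : 1 ≤ Gs g P D)
    (hv : ∀ E, val (sel g P D) E = (val (lam g P D) E) ^ 2) :
    mean g P (sel g P D) = 1 / Gs g P D := by
  rw [mean_model]
  have h1 : ∀ E ∈ P.powerset, prob g P E * val (sel g P D) E = ∑ R ∈ P.powerset, ∑ R' ∈ P.powerset,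
      ys g P D R * ys g P D R' * (prob g P E * (chi g R E * chi g R' E)) := by
    intro E hE
    rw [mem_powerset] at hE
    rw [hv, val_lam g P D hP hg E hE, sq, sum_mul_sum, mul_sum]
    refine sum_congr rfl fun R _ => ?_
    rw [mul_sum]
    refine sum_congr rfl fun R' _ => ?_
    ring
  rw [sum_congr rfl h1, sum_comm]
  have h2 : ∀ R ∈ P.powerset, ∑ E ∈ P.powerset, ∑ R' ∈ P.powerset,
      ys g P D R * ys g P D R' * (prob g P E * (chi g R E * chi g R' E)) =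
        if ∏ p ∈ R, (p : ℝ) ≤ D then (∏ p ∈ R, hh g p) / Gs g P D ^ 2 else 0 := by
    intro R hR
    rw [sum_comm]
    have h3 : ∀ R' ∈ P.powerset, ∑ E ∈ P.powerset,
        ys g P D R * ys g P D R' * (prob g P E * (chi g R E * chi g R' E)) =
          if R = R' then ys g P D R * ys g P D R' * ∏ p ∈ R, (g p * (1 - g p)) else 0 := by
      intro R' hR'
      rw [← mul_sum, chi_orth g P R R' (mem_powerset.1 hR) (mem_powerset.1 hR'), mul_ite, mul_zero]
    rw [sum_congr rfl h3, sum_ite_eq, if_pos hR]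
    unfold ys
    split_ifs with h
    · have h4 : ∏ p ∈ R, (1 - g p) ≠ 0 := prod_ne_zero_iff.2 fun p hp => by
        have := (hg p (mem_powerset.1 hR hp)).2
        linarith
      have h5 : ((-1 : ℝ) ^ R.card) * (-1) ^ R.card = 1 := by
        rw [← mul_pow]
        norm_num
      unfold hh
      rw [prod_mul_distrib, prod_div_distrib]
      field_simp
      linear_combination (∏ p ∈ R, g p) * h5
    · simp
  rw [sum_congr rfl h2, ← sum_filter, ← sum_div]
  have h6 : (∑ R ∈ P.powerset.filter (fun R : Finset ℕ => ∏ p ∈ R, (p : ℝ) ≤ D), ∏ p ∈ R, hh g p) =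
      Gs g P D := by
    unfold Gs
    congr!
  rw [h6]
  have h7 : Gs g P D ≠ 0 := by linarith
  field_simp

end H65.DR
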