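import Pool.Agent.H65.DR.Def

/-!
# [DR S Rk] Rankin's bound for Selberg's sum

`1 + hh g p = (1 - g p)⁻¹`. `∑_{S ⊆ P} ∏_S h = ∏_P (1 + h) = 1 / vv g P`. The sets with `∏ S > D`: for them `1 ≤ (∏ S / D) ^ κ = D ^ (-κ) ∏_S p ^ κ`, so
`∑_{S ⊆ P, ∏ S > D} ∏_S h ≤ D ^ (-κ) ∑_{S ⊆ P} ∏_S (h p * p ^ κ) = D ^ (-κ) ∏_P (1 + h p * p ^ κ)`. Multiply by `vv g P = ∏_P (1 - g) > 0`:
`Gs g P D * vv g P ≥ 1 - D ^ (-κ) ∏_P (1 - g) (1 + h p^κ) = 1 - D ^ (-κ) ∏_P (1 + g (p ^ κ - 1))` (`(1 - g) h = g`), and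
`1 + x ≤ exp x` (`Real.add_one_le_exp`; the factors are `≥ 0` because `p ^ κ ≥ 1`), `D ^ (-κ) = exp (-κ log D)`.
-/

set_option autoImplicit false

namespace H65.DR

open Finset H23.LP H96.DR Pool.Agent.H95.FL

theorem rankin (g : ℕ → ℝ) (P : Finset ℕ) (D κ : ℝ) (hD : 1 ≤ D) (hκ : 0 ≤ κ) (hP : ∀ p ∈ P, 1 ≤ p)
    (hg : ∀ p ∈ P, 0 ≤ g p ∧ g p < 1) :
    1 - Real.exp (-(κ * Real.log D) + ∑ p ∈ P, g p * ((p : ℝ) ^ κ - 1)) ≤ Gs g P D * vv g P := by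
  classical
  have hg1 : ∀ p ∈ P, 0 < 1 - g p := fun p hp => by linarith [(hg p hp).2]
  have hh0 : ∀ p ∈ P, 0 ≤ hh g p := fun p hp => div_nonneg (hg p hp).1 (hg1 p hp).le
  have hpk : ∀ p ∈ P, (1 : ℝ) ≤ (p : ℝ) ^ κ := fun p hp =>
    Real.one_le_rpow (by exact_mod_cast hP p hp) hκ
  have hD0 : 0 < D := by linarith
  have hDk : 0 < D ^ (-κ) := Real.rpow_pos_of_pos hD0 _
  have hvv : vv g P = ∏ p ∈ P, (1 - g p) := rfl
  have hv0 : 0 ≤ vv g P := by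
    rw [hvv]
    exact prod_nonneg fun p hp => (hg1 p hp).le
  -- the complete sum
  have h1 : Gs g P D + ∑ S ∈ P.powerset.filter fun S : Finset ℕ => ¬ ∏ p ∈ S, (p : ℝ) ≤ D, ∏ p ∈ S, hh g p =
      ∏ p ∈ P, (1 + hh g p) := by
    rw [prod_one_add]
    exact sum_filter_add_sum_filter_not _ _ _
  -- the large sets
  have h2 : ∑ S ∈ P.powerset.filter fun S : Finset ℕ => ¬ ∏ p ∈ S, (p : ℝ) ≤ D, ∏ p ∈ S, hh g p ≤
      D ^ (-κ) * ∏ p ∈ P, (1 + hh g p * (p : ℝ) ^ κ) := by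
    rw [prod_one_add, mul_sum]
    have h3 : ∀ S ∈ P.powerset, 0 ≤ ∏ p ∈ S, hh g p := fun S hS =>
      prod_nonneg fun p hp => hh0 p (mem_powerset.1 hS hp)
    have h4 : ∀ S ∈ P.powerset, ∏ p ∈ S, (hh g p * (p : ℝ) ^ κ) = (∏ p ∈ S, hh g p) * (∏ p ∈ S, (p : ℝ)) ^ κ := by
      intro S _
      rw [prod_mul_distrib, Real.finsetProd_rpow _ _ fun p _ => Nat.cast_nonneg p]
    refine le_trans (sum_le_sum (g := fun S => D ^ (-κ) * ∏ p ∈ S, (hh g p * (p : ℝ) ^ κ)) fun S hS => ?_)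
      (sum_le_sum_of_subset_of_nonneg (filter_subset _ _) fun S hS _ => ?_)
    · rw [mem_filter] at hS
      rw [h4 S hS.1]
      have h5 : 1 ≤ D ^ (-κ) * (∏ p ∈ S, (p : ℝ)) ^ κ := by
        have h6 : D ≤ ∏ p ∈ S, (p : ℝ) := (not_le.1 hS.2).le
        have h7 : D ^ κ ≤ (∏ p ∈ S, (p : ℝ)) ^ κ := Real.rpow_le_rpow hD0.le h6 hκ
        calc (1 : ℝ) = D ^ (-κ) * D ^ κ := by rw [← Real.rpow_add hD0, neg_add_cancel, Real.rpow_zero]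
          _ ≤ _ := mul_le_mul_of_nonneg_left h7 hDk.le
      calc ∏ p ∈ S, hh g p = 1 * ∏ p ∈ S, hh g p := (one_mul _).symm
        _ ≤ (D ^ (-κ) * (∏ p ∈ S, (p : ℝ)) ^ κ) * ∏ p ∈ S, hh g p := mul_le_mul_of_nonneg_right h5 (h3 S hS.1)
        _ = _ := by ring
    · rw [h4 S hS]
      exact mul_nonneg hDk.le (mul_nonneg (h3 S hS) (Real.rpow_nonneg (prod_nonneg fun p _ => Nat.cast_nonneg p) _))
  have h3 : (∏ p ∈ P, (1 + hh g p)) * vv g P = 1 := by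
    rw [hvv, ← prod_mul_distrib]
    refine prod_eq_one fun p hp => ?_
    have := (hg1 p hp).ne'
    unfold hh
    field_simp
    ring
  have h4 : (∏ p ∈ P, (1 + hh g p * (p : ℝ) ^ κ)) * vv g P ≤ Real.exp (∑ p ∈ P, g p * ((p : ℝ) ^ κ - 1)) := by
    rw [hvv, ← prod_mul_distrib, Real.exp_sum]
    refine prod_le_prod (fun p hp => ?_) fun p hp => ?_
    · have h5 := hh0 p hp
      have h6 := hpk p hp
      have h7 := hg1 p hp
      positivity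
    · have h5 : (1 + hh g p * (p : ℝ) ^ κ) * (1 - g p) = g p * ((p : ℝ) ^ κ - 1) + 1 := by
        have := (hg1 p hp).ne'
        unfold hh
        field_simp
        ring
      rw [h5]
      exact Real.add_one_le_exp _
  have h5 : Real.exp (-(κ * Real.log D) + ∑ p ∈ P, g p * ((p : ℝ) ^ κ - 1)) =
      D ^ (-κ) * Real.exp (∑ p ∈ P, g p * ((p : ℝ) ^ κ - 1)) := by
    rw [Real.exp_add, Real.rpow_def_of_pos hD0]
    congr 2
    ring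
  rw [h5]
  have h6 : Gs g P D * vv g P = 1 - (∑ S ∈ P.powerset.filter fun S : Finset ℕ => ¬ ∏ p ∈ S, (p : ℝ) ≤ D,
      ∏ p ∈ S, hh g p) * vv g P := by
    rw [← h3, ← h1]
    ring
  rw [h6]
  have h7 := mul_le_mul_of_nonneg_right h2 hv0
  have h8 := mul_le_mul_of_nonneg_left h4 hDk.le
  linarith

end H65.DR
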