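import Pool.Agent.H65.DR.Rk
import Pool.Agent.H65.DR.Bt
import Pool.Agent.H23.LP.M1

/-!
# [DR S Rn] Rankin's bound, numerically: `G V ≥ 0.9575`

`z = A ^ 0.0144`, `log z = 0.0144 log A`, `D = A ^ 0.0648`, `κ = 1.5 / log z`: `κ log D = 1.5 * 0.0648 / 0.0144 = 6.75`. `P = Pj w A j`, `w0 = 6 |k| + 10` (so `p ∤ 6 k` and `bt ≤ 3 / p < 1` for `p ∈ P`).
For `p ≤ z`: `p ^ κ = exp (1.5 u)`, `u = log p / log z ∈ [0, 1]`, and by convexity (`exp (1.5 u) ≤ (1 - u) exp 0 + u exp 1.5`, `convexOn_exp`) `p ^ κ - 1 ≤ u (exp 1.5 - 1) ≤ 3.482 u`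
(`exp 1.5 ≤ 4.482`: `(exp 1.5)^2 = exp 1 ^ 3 ≤ 2.7182818286 ^ 3 ≤ 20.0856 ≤ 4.482 ^ 2`). So
`∑_P bt (p ^ κ - 1) ≤ (3.482 / log z) ∑_{p ∈ P} (nu/p + 10/p²) log p ≤ (3.482 / log z) (∑_{p ≤ z prime} nu log p / p + 10 ∑_p log p / p²)`. The first sum is `≤ (1 + 1/200) log z` by `mer1` (`ε = 1/200`, `z ≥ x0`),
the second is bounded by an absolute constant `C` (`log n ≤ 2 n^(1/2)` (`Real.log_le_sub_one_of_pos` / `Real.log_le_rpow_div`), `∑ 2 n^(-3/2)` converges), `10 C ≤ (1/1000) log z` for large `A`.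
So the exponent in `rankin` is `≤ -6.75 + 3.482 * 1.006 ≤ -3.2`, and `exp (-3.2) ≤ 0.0425` (`exp 3.2 ≥ exp 3 * 1.2 ≥ 2.7182818283 ^ 3 * 1.2 ≥ 24.1`, `1 / 24.1 ≤ 0.0425`).
The set `{p ∈ P}` is contained in `(Icc 1 ⌊z⌋₊).filter Nat.Prime`.
-/

set_option autoImplicit false

namespace H65.DR

open Finset H23.LP H96.DR Pool.Agent.H95.FL

/-- the numbers -/
theorem exp_num : Real.exp 1.5 ≤ 4.482 ∧ Real.exp (-3.2) ≤ 0.0425 := by
  have h1 := Real.exp_one_lt_d9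
  have h2 := Real.exp_one_gt_d9
  have h0 := Real.exp_pos 1
  constructor
  · have h3 : Real.exp 1.5 ^ 2 = Real.exp 1 ^ 3 := by
      rw [← Real.exp_nat_mul, ← Real.exp_nat_mul]
      norm_num
    have h4 : Real.exp 1 ^ 3 ≤ 2.7182818286 ^ 3 := pow_le_pow_left₀ h0.le h1.le 3
    have h5 : Real.exp 1.5 ^ 2 ≤ 4.482 ^ 2 := by
      rw [h3]
      refine h4.trans ?_
      norm_num
    exact le_of_sq_le_sq h5 (by norm_num)
  · have h3 : Real.exp 3.2 = Real.exp 1 ^ 3 * Real.exp 0.2 := by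
      rw [← Real.exp_nat_mul, ← Real.exp_add]
      norm_num
    have h4 : 2.7182818283 ^ 3 ≤ Real.exp 1 ^ 3 := pow_le_pow_left₀ (by norm_num) h2.le 3
    have h5 : (1.2 : ℝ) ≤ Real.exp 0.2 := by
      have := Real.add_one_le_exp (0.2 : ℝ)
      linarith
    have h6 : (24 : ℝ) ≤ Real.exp 3.2 := by
      rw [h3]
      have h7 : (20 : ℝ) ≤ Real.exp 1 ^ 3 := by
        refine le_trans ?_ h4
        norm_num
      nlinarith
    rw [Real.exp_neg]
    calc (Real.exp 3.2)⁻¹ ≤ (24 : ℝ)⁻¹ := inv_anti₀ (by norm_num) h6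
      _ ≤ 0.0425 := by norm_num

/-- convexity -/
theorem conv_num (u : ℝ) (h0 : 0 ≤ u) (h1 : u ≤ 1) : Real.exp (1.5 * u) - 1 ≤ 3.482 * u := by
  have h2 := convexOn_exp.2 (Set.mem_univ (0 : ℝ)) (Set.mem_univ (1.5 : ℝ))
    (by linarith : 0 ≤ 1 - u) h0 (by ring)
  simp only [smul_eq_mul, mul_zero, zero_add, Real.exp_zero, mul_one] at h2
  have h3 := mul_le_mul_of_nonneg_left exp_num.1 h0
  rw [mul_comm 1.5 u]
  linarith

/-- the convergent series -/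
theorem log_sq : ∃ C : ℝ, 0 ≤ C ∧ ∀ P : Finset ℕ, (∀ p ∈ P, 1 ≤ p) → ∑ p ∈ P, Real.log p / (p : ℝ) ^ 2 ≤ C := by
  have hnn : ∀ n : ℕ, 0 ≤ Real.log n / (n : ℝ) ^ 2 := fun n =>
    div_nonneg (Real.log_natCast_nonneg n) (by positivity)
  have hs : Summable (fun n : ℕ => Real.log n / (n : ℝ) ^ 2) := by
    have h1 : Summable (fun n : ℕ => 2 * (n : ℝ) ^ (-(3 / 2) : ℝ)) :=
      (Real.summable_nat_rpow.2 (by norm_num)).mul_left 2
    refine Summable.of_nonneg_of_le hnn (fun n => ?_) h1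
    rcases Nat.eq_zero_or_pos n with h0 | h0
    · subst h0
      simp
    · have hn : (0 : ℝ) < n := by exact_mod_cast h0
      have h2 := Real.log_le_rpow_div hn.le (show (0 : ℝ) < 1 / 2 by norm_num)
      have h3 : (n : ℝ) ^ (-(3 / 2) : ℝ) = (n : ℝ) ^ (1 / 2 : ℝ) / (n : ℝ) ^ 2 := by
        rw [← Real.rpow_natCast, ← Real.rpow_sub hn]
        norm_num
      rw [h3, ← mul_div_assoc]
      refine div_le_div_of_nonneg_right ?_ (by positivity)
      linarith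
  refine ⟨∑' n : ℕ, Real.log n / (n : ℝ) ^ 2, tsum_nonneg hnn, fun P _ => ?_⟩
  exact hs.sum_le_tsum P fun n _ => hnn n

private theorem rn_not_dvd (k : ℤ) (hk0 : k ≠ 0) (w p : ℕ) (hw : 6 * k.natAbs + 10 ≤ w)
    (hp : w < p) : ¬ (p : ℤ) ∣ 6 * k := by
  intro h
  have h1 : p ∣ (6 * k).natAbs := Int.natCast_dvd.1 h
  have h2 : (6 * k).natAbs = 6 * k.natAbs := by
    rw [Int.natAbs_mul]
    rfl
  rw [h2] at h1
  have h3 : 0 < k.natAbs := Int.natAbs_pos.2 hk0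
  have h4 := Nat.le_of_dvd (by omega) h1
  omega

theorem rank_num (k : ℤ) (hk : ∀ t : ℤ, t ^ 3 ≠ k) (w : ℕ) (hw : 6 * k.natAbs + 10 ≤ w) :
    ∃ A0 : ℕ, ∀ A : ℕ, A0 ≤ A → ∀ j : ℕ,
      0.9575 ≤ Gs (bt k) (Pj w A j) ((A : ℝ) ^ (0.0648 : ℝ)) * vv (bt k) (Pj w A j) := by
  have hk0 : k ≠ 0 := by
    rintro rfl
    exact hk 0 (by norm_num)
  obtain ⟨x0, hx0⟩ := mer1 k hk (1 / 200) (by norm_num)
  obtain ⟨C, hC0, hC⟩ := log_sq
  have ht : Filter.Tendsto (fun A : ℕ => (A : ℝ) ^ (0.0144 : ℝ)) Filter.atTop Filter.atTop :=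
    (tendsto_rpow_atTop (by norm_num)).comp tendsto_natCast_atTop_atTop
  have hl := Real.tendsto_log_atTop.comp ht
  have hev := (ht.eventually_ge_atTop (max x0 1)).and
    ((hl.eventually_ge_atTop (10000 * C + 1)).and (Filter.eventually_ge_atTop (1 : ℕ)))
  obtain ⟨A0, hA0⟩ := Filter.eventually_atTop.1 hev
  refine ⟨A0, fun A hA j => ?_⟩
  obtain ⟨hz, hlz, hA1⟩ := hA0 A hA
  set z : ℝ := (A : ℝ) ^ (0.0144 : ℝ) with hzdef
  have hlz' : 10000 * C + 1 ≤ Real.log z := hlz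
  have hA0' : (0 : ℝ) < A := by exact_mod_cast hA1
  have hA1' : (1 : ℝ) ≤ A := by exact_mod_cast hA1
  have hlz0 : 0 < Real.log z := by linarith
  have hz1 : 1 ≤ z := (le_max_right _ _).trans hz
  have hlogz : Real.log z = 0.0144 * Real.log A := Real.log_rpow hA0' _
  have hlogA : Real.log A ≠ 0 := by
    intro h
    rw [hlogz, h, mul_zero] at hlz0
    exact lt_irrefl _ hlz0
  set P := Pj w A j with hP
  have hPm : ∀ p ∈ P, p.Prime ∧ w < p ∧ (p : ℝ) ≤ z := by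
    intro p hp
    rw [hP, Pj, mem_filter, mem_range] at hp
    refine ⟨hp.2.1, hp.2.2.1, ?_⟩
    exact (Nat.le_floor_iff (by linarith)).1 (Nat.lt_succ_iff.1 hp.1)
  have hPsub : P ⊆ (Icc 1 ⌊z⌋₊).filter Nat.Prime := by
    intro p hp
    obtain ⟨h1, _, h3⟩ := hPm p hp
    rw [mem_filter, mem_Icc]
    exact ⟨⟨h1.one_le, Nat.le_floor h3⟩, h1⟩
  set κ : ℝ := 1.5 / Real.log z with hκ
  have hκ0 : 0 ≤ κ := by positivity
  have hD1 : 1 ≤ (A : ℝ) ^ (0.0648 : ℝ) := Real.one_le_rpow hA1' (by norm_num)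
  have hbt : ∀ p ∈ P, 0 ≤ bt k p ∧ bt k p < 1 := by
    intro p hp
    obtain ⟨h1, h2, _⟩ := hPm p hp
    refine ⟨bt_nonneg k p, (bt_le3 k p h1).trans_lt ?_⟩
    have h3 : (3 : ℝ) < p := by
      have : 3 < p := by omega
      exact_mod_cast this
    rw [div_lt_one (by linarith)]
    exact h3
  have hmain := rankin (bt k) P ((A : ℝ) ^ (0.0648 : ℝ)) κ hD1 hκ0
    (fun p hp => (hPm p hp).1.one_le) hbt
  refine le_trans ?_ hmain
  -- the first term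
  have hfirst : κ * Real.log ((A : ℝ) ^ (0.0648 : ℝ)) = 6.75 := by
    rw [Real.log_rpow hA0', hκ, hlogz]
    field_simp
    norm_num
  -- the sum
  have hterm : ∀ p ∈ P, bt k p * ((p : ℝ) ^ κ - 1) ≤
      (3.482 / Real.log z) * ((nu k p : ℝ) * Real.log p / p + 10 * (Real.log p / (p : ℝ) ^ 2)) := by
    intro p hp
    obtain ⟨h1, h2, h3⟩ := hPm p hp
    have hp0 : (0 : ℝ) < p := by exact_mod_cast h1.pos
    have hlp : 0 ≤ Real.log p := Real.log_natCast_nonneg p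
    have hlpz : Real.log p ≤ Real.log z := Real.log_le_log hp0 h3
    have h4 : (p : ℝ) ^ κ = Real.exp (1.5 * (Real.log p / Real.log z)) := by
      rw [Real.rpow_def_of_pos hp0, hκ]
      congr 1
      ring
    have h5 := conv_num (Real.log p / Real.log z) (div_nonneg hlp hlz0.le)
      ((div_le_one hlz0).2 hlpz)
    rw [← h4] at h5
    have h6 := bt_le k p h1 (rn_not_dvd k hk0 w p hw h2)
    calc bt k p * ((p : ℝ) ^ κ - 1) ≤ bt k p * (3.482 * (Real.log p / Real.log z)) :=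
          mul_le_mul_of_nonneg_left h5 (bt_nonneg k p)
      _ ≤ ((nu k p : ℝ) / p + 10 / (p : ℝ) ^ 2) * (3.482 * (Real.log p / Real.log z)) :=
          mul_le_mul_of_nonneg_right h6 (by positivity)
      _ = _ := by ring
  have hsum : ∑ p ∈ P, bt k p * ((p : ℝ) ^ κ - 1) ≤ 3.55 := by
    refine (sum_le_sum hterm).trans ?_
    rw [← mul_sum, sum_add_distrib, ← mul_sum]
    have h1 : ∑ p ∈ P, (nu k p : ℝ) * Real.log p / p ≤ (1 + 1 / 200) * Real.log z := by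
      have h2 : ∑ p ∈ P, (nu k p : ℝ) * Real.log p / p ≤
          ∑ p ∈ (Icc 1 ⌊z⌋₊).filter Nat.Prime, (nu k p : ℝ) * Real.log p / p := by
        refine sum_le_sum_of_subset_of_nonneg hPsub fun p _ _ => ?_
        have := Real.log_natCast_nonneg p
        positivity
      have h3 := (abs_le.1 (hx0 z ((le_max_left _ _).trans hz))).2
      linarith
    have h2 := hC P fun p hp => (hPm p hp).1.one_le
    have h3 : ∑ p ∈ P, (nu k p : ℝ) * Real.log p / p + 10 * ∑ p ∈ P, Real.log p / (p : ℝ) ^ 2 ≤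
        1.006 * Real.log z := by
      linarith
    calc 3.482 / Real.log z * (∑ p ∈ P, (nu k p : ℝ) * Real.log p / p +
          10 * ∑ p ∈ P, Real.log p / (p : ℝ) ^ 2) ≤ 3.482 / Real.log z * (1.006 * Real.log z) :=
          mul_le_mul_of_nonneg_left h3 (by positivity)
      _ = 3.482 * 1.006 := by field_simp
      _ ≤ 3.55 := by norm_num
  have hexp : Real.exp (-(κ * Real.log ((A : ℝ) ^ (0.0648 : ℝ))) +
      ∑ p ∈ P, bt k p * ((p : ℝ) ^ κ - 1)) ≤ 0.0425 := by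
    refine le_trans (Real.exp_le_exp.2 ?_) exp_num.2
    rw [hfirst]
    linarith
  linarith

end H65.DR
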