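import Pool.Agent.H65.DR.Def

/-!
# [DR S Sq] Selberg's weights: algebra of the square

* `val_sel`: `val (sel g P D) E = ∑_{S ⊆ E} ∑_{U, V ⊆ S, U ∪ V = S} λ U λ V = ∑_{U, V ⊆ E} λ U λ V = (val λ E) ^ 2` (for `U, V ⊆ E` exactly one
  `S ⊆ E`, namely `S = U ∪ V`, occurs, and then `U, V ⊆ S`; exchange the sums, `Finset.sum_ite_eq`).
* `lam_supp`: by definition (`if`). `sel_supp`: if `sel g P D S ≠ 0` some term is `≠ 0` (`Finset.exists_ne_zero_of_sum_ne_zero`): `U ∪ V = S`, `λ U ≠ 0`,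
  `λ V ≠ 0`. So `S ⊆ P`, and `∏_{U ∪ V} p ≤ ∏_U p * ∏_V p ≤ D ^ 2` (`∏_{U ∪ V} * ∏_{U ∩ V} = ∏_U * ∏_V` (`Finset.prod_union_inter`), all `p ≥ 1`).
* `sel_abs`: `|sel S| ≤ #{(U, V) : U, V ⊆ S, U ∪ V = S} = 3 ^ #S`. For the number of pairs: induction on `S` (`Finset.induction_on`, insert `p`: a pair for
  `insert p S` is a pair for `S` with `p` added to the first, the second or both), or: for given `U` the `V` are the sets `(S \ U) ∪ T`, `T ⊆ U`, so the number is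
  `∑_{U ⊆ S} 2 ^ #U = 3 ^ #S` (`Finset.sum_pow_mul_eq_add_pow` / `Finset.prod_add`). The upper bound `≤` is enough.
* `lam_empty`: `∅ ⊆ P`, `∏ ∅ = 1 ≤ D`, `Gs g (P \ ∅) (D / 1) / Gs g P D = 1`.
* `sel_empty`: `powerset ∅ = {∅}`: `sel ∅ = λ ∅ * λ ∅ = 1`.
* `Gs_pos`: the term `S = ∅` is `1`, all terms are `≥ 0` (`hh ≥ 0`).
-/

set_option autoImplicit false

namespace H65.DR

open Finset H23.LP H96.DR Pool.Agent.H95.FL

theorem hh_nonneg (g : ℕ → ℝ) (p : ℕ) (h0 : 0 ≤ g p) (h1 : g p < 1) : 0 ≤ hh g p := by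
  unfold hh
  exact div_nonneg h0 (by linarith)

theorem Gs_pos (g : ℕ → ℝ) (P : Finset ℕ) (D : ℝ) (hD : 1 ≤ D) (hg : ∀ p ∈ P, 0 ≤ g p ∧ g p < 1) :
    1 ≤ Gs g P D := by
  classical
  unfold Gs
  have h1 : (∅ : Finset ℕ) ∈ P.powerset.filter fun S : Finset ℕ => ∏ p ∈ S, (p : ℝ) ≤ D := by
    rw [mem_filter]
    exact ⟨empty_mem_powerset P, by simpa using hD⟩
  have h2 : ∏ p ∈ (∅ : Finset ℕ), hh g p = 1 := prod_empty
  rw [← h2]
  refine single_le_sum (f := fun S : Finset ℕ => ∏ p ∈ S, hh g p) (fun S hS => ?_) h1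
  rw [mem_filter, mem_powerset] at hS
  exact prod_nonneg fun p hp => hh_nonneg g p (hg p (hS.1 hp)).1 (hg p (hS.1 hp)).2

theorem val_sel (g : ℕ → ℝ) (P : Finset ℕ) (D : ℝ) (E : Finset ℕ) :
    val (sel g P D) E = (val (lam g P D) E) ^ 2 := by
  classical
  unfold Pool.Agent.H95.FL.val sel
  have h1 : ∀ S ∈ E.powerset, (∑ U ∈ S.powerset, ∑ V ∈ S.powerset,
      if U ∪ V = S then lam g P D U * lam g P D V else 0) =
      ∑ U ∈ E.powerset, ∑ V ∈ E.powerset, if U ∪ V = S then lam g P D U * lam g P D V else 0 := by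
    intro S hS
    rw [mem_powerset] at hS
    have h2 : ∀ U : Finset ℕ, (∑ V ∈ S.powerset,
        if U ∪ V = S then lam g P D U * lam g P D V else 0) =
        ∑ V ∈ E.powerset, if U ∪ V = S then lam g P D U * lam g P D V else 0 := by
      intro U
      refine sum_subset (powerset_mono.2 hS) fun V _ hV => ?_
      rw [if_neg]
      intro h
      exact hV (by rw [mem_powerset, ← h]; exact subset_union_right)
    rw [sum_congr rfl fun U _ => h2 U]
    refine sum_subset (powerset_mono.2 hS) fun U _ hU => ?_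
    refine sum_eq_zero fun V _ => ?_
    rw [if_neg]
    intro h
    exact hU (by rw [mem_powerset, ← h]; exact subset_union_left)
  rw [sum_congr rfl h1, sum_comm, pow_two, sum_mul_sum]
  refine sum_congr rfl fun U hU => ?_
  rw [sum_comm]
  refine sum_congr rfl fun V hV => ?_
  rw [mem_powerset] at hU hV
  rw [sum_ite_eq, if_pos (mem_powerset.2 (union_subset hU hV))]

theorem lam_supp (g : ℕ → ℝ) (P : Finset ℕ) (D : ℝ) (S : Finset ℕ) (h : lam g P D S ≠ 0) :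
    S ⊆ P ∧ ∏ p ∈ S, (p : ℝ) ≤ D := by
  classical
  unfold lam at h
  by_contra hn
  rw [if_neg hn] at h
  exact h rfl

theorem sel_supp (g : ℕ → ℝ) (P : Finset ℕ) (D : ℝ) (hD : 1 ≤ D) (hP : ∀ p ∈ P, 1 ≤ p) (S : Finset ℕ)
    (h : sel g P D S ≠ 0) : S ⊆ P ∧ ∏ p ∈ S, (p : ℝ) ≤ D ^ 2 := by
  classical
  unfold sel at h
  obtain ⟨U, _, hU⟩ := exists_ne_zero_of_sum_ne_zero h
  obtain ⟨V, _, hV⟩ := exists_ne_zero_of_sum_ne_zero hU
  by_cases hUV : U ∪ V = S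
  · rw [if_pos hUV] at hV
    obtain ⟨a1, a2⟩ := lam_supp g P D U (left_ne_zero_of_mul hV)
    obtain ⟨b1, b2⟩ := lam_supp g P D V (right_ne_zero_of_mul hV)
    refine ⟨by rw [← hUV]; exact union_subset a1 b1, ?_⟩
    have h1 : (∏ p ∈ U ∪ V, (p : ℝ)) * ∏ p ∈ U ∩ V, (p : ℝ) = (∏ p ∈ U, (p : ℝ)) * ∏ p ∈ V, (p : ℝ) :=
      prod_union_inter
    have h2 : 1 ≤ ∏ p ∈ U ∩ V, (p : ℝ) := by
      rw [← prod_const_one (s := U ∩ V)]
      refine prod_le_prod (fun _ _ => zero_le_one) fun p hp => ?_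
      exact_mod_cast hP p (a1 (mem_inter.1 hp).1)
    have h3 : 0 ≤ ∏ p ∈ U ∪ V, (p : ℝ) := prod_nonneg fun p _ => Nat.cast_nonneg p
    have h4 : 0 ≤ ∏ p ∈ V, (p : ℝ) := prod_nonneg fun p _ => Nat.cast_nonneg p
    rw [← hUV]
    calc ∏ p ∈ U ∪ V, (p : ℝ) ≤ (∏ p ∈ U ∪ V, (p : ℝ)) * ∏ p ∈ U ∩ V, (p : ℝ) :=
          le_mul_of_one_le_right h3 h2
      _ = (∏ p ∈ U, (p : ℝ)) * ∏ p ∈ V, (p : ℝ) := h1
      _ ≤ D * D := mul_le_mul a2 b2 h4 (by linarith)
      _ = D ^ 2 := by ring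
  · rw [if_neg hUV] at hV
    exact absurd rfl hV

theorem sel_abs (g : ℕ → ℝ) (P : Finset ℕ) (D : ℝ) (hl : ∀ S, |lam g P D S| ≤ 1) (S : Finset ℕ) :
    |sel g P D S| ≤ 3 ^ S.card := by
  classical
  unfold sel
  have h1 : ∀ U ∈ S.powerset, |∑ V ∈ S.powerset,
      if U ∪ V = S then lam g P D U * lam g P D V else 0| ≤ 2 ^ U.card := by
    intro U hU
    rw [mem_powerset] at hU
    have h2 : |∑ V ∈ S.powerset, if U ∪ V = S then lam g P D U * lam g P D V else 0| ≤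
        ∑ V ∈ S.powerset, if U ∪ V = S then (1 : ℝ) else 0 := by
      refine (abs_sum_le_sum_abs _ _).trans (sum_le_sum fun V _ => ?_)
      split_ifs
      · rw [abs_mul]
        exact mul_le_one₀ (hl U) (abs_nonneg _) (hl V)
      · rw [abs_zero]
    refine h2.trans ?_
    rw [sum_boole]
    have h3 : (S.powerset.filter fun V => U ∪ V = S).card ≤ U.powerset.card := by
      refine card_le_card_of_injOn (fun V => U ∩ V) (fun V _ => ?_) fun V hV V' hV' hVV => ?_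
      · rw [mem_coe, mem_powerset]
        exact inter_subset_left
      · rw [mem_coe, mem_filter] at hV hV'
        have hVV' : U ∩ V = U ∩ V' := hVV
        ext p
        by_cases hp : p ∈ U
        · have h4 : p ∈ U ∩ V ↔ p ∈ U ∩ V' := by rw [hVV']
          rw [mem_inter, mem_inter] at h4
          tauto
        · have h4 : p ∈ U ∪ V ↔ p ∈ U ∪ V' := by rw [hV.2, hV'.2]
          rw [mem_union, mem_union] at h4
          tauto
    rw [card_powerset] at h3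
    exact_mod_cast h3
  calc |∑ U ∈ S.powerset, ∑ V ∈ S.powerset, if U ∪ V = S then lam g P D U * lam g P D V else 0|
      ≤ ∑ U ∈ S.powerset, |∑ V ∈ S.powerset,
        if U ∪ V = S then lam g P D U * lam g P D V else 0| := abs_sum_le_sum_abs _ _
    _ ≤ ∑ U ∈ S.powerset, (2 : ℝ) ^ U.card := sum_le_sum h1
    _ = ∑ U ∈ S.powerset, (2 : ℝ) ^ U.card * 1 ^ (S.card - U.card) := by simp
    _ = (2 + 1) ^ S.card := sum_pow_mul_eq_add_pow 2 1 S
    _ = 3 ^ S.card := by norm_num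

theorem lam_empty (g : ℕ → ℝ) (P : Finset ℕ) (D : ℝ) (hD : 1 ≤ D) (hG : Gs g P D ≠ 0) :
    lam g P D ∅ = 1 := by
  classical
  unfold lam
  rw [if_pos ⟨empty_subset P, by simpa using hD⟩]
  simp [hG]

theorem sel_empty (g : ℕ → ℝ) (P : Finset ℕ) (D : ℝ) (hD : 1 ≤ D) (hG : Gs g P D ≠ 0) :
    sel g P D ∅ = 1 := by
  classical
  unfold sel
  rw [powerset_empty, sum_singleton, sum_singleton, if_pos (union_empty _), lam_empty g P D hD hG,
    one_mul]

end H65.DR
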