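import Pool.Agent.H65.DR.Lo
import Pool.Agent.H65.DR.Sq
import Pool.Agent.H65.DR.La
import Pool.Agent.H65.DR.Or
import Pool.Agent.H65.DR.Rn

/-!
# [DR S Sv] assembly of chapter S

`w0 = max (w0 of low) (max (6 |k| + 10) (9 ^ 10))`, `P = Pj w A j`, `D = A ^ 0.0648`, `phi = sel (bt k) P D`, `G = Gs (bt k) P D`, `V = vv (bt k) P`, `0 ≤ bt ≤ 3/p < 1` on `P`, `G ≥ 1` (`Gs_pos`).
* support: `sel_supp`, `D ^ 2 = A ^ 0.1296`, `mem_Pj`. Bound: `sel_abs`, `lam_abs`. Nonnegative: `val_sel` (a square; `∑ S ∈ E.powerset, f S = val f E` by `rfl`). If `E` contains no prime of `P`: `val (lam) E = lam ∅ = 1`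
  (every nonempty `S ⊆ E` with `lam S ≠ 0` would be a subset of `P ∩ E = ∅`), so `val sel E = 1`.
* sum: `∑_{S ⊆ primeFactors |nn x|} phi S = val phi (Dx k P x)` for `x ∈ AJ` (`nn x ≠ 0`, `nn_ne` with `p = 2`; `phi S ≠ 0 → S ⊆ P`; the sets `S ⊆ P ∩ primeFactors` are the subsets of `Dx`). By `aj_sum` with `c = 3`, `Y = D ^ 2 = A ^ 0.1296` (`Q J² A^0.1296 ≤ A`):
  `≤ Mj / G + 7 J² A² (A ^ 0.1296) ^ 1.1 ≤ Mj / G + A ^ 2.5` for large `A` (`mean_sel`).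
* `1 / G ≤ V / 0.9575` (`rank_num`, `G V ≥ 0.9575`, so `1 / G ≤ V / 0.9575`), `1 / 0.9575 ≤ 1.0445 ≤ 1.05 * 0.995 = 1.04475`, so `Mj / G ≤ 1.05 * 0.995 Mj V ≤ 1.05 (#rough + A ^ 2.95)` (`low`), and `1.05 A ^ 2.95 + A ^ 2.5 ≤ A ^ 2.99` for large `A`.
-/

set_option autoImplicit false

namespace H65.DR

open Finset H23.LP H96.DR Pool.Agent.H95.FL

/-- the facts about `P`, `D`, `sel` -/
theorem sel_facts (k : ℤ) (w A j : ℕ) (hw : 10 ≤ w) (hA : 1 ≤ A) :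
    (∀ p ∈ Pj w A j, 1 ≤ p) ∧ (∀ p ∈ Pj w A j, 0 ≤ bt k p ∧ bt k p < 1) ∧
    1 ≤ (A : ℝ) ^ (0.0648 : ℝ) ∧ 1 ≤ Gs (bt k) (Pj w A j) ((A : ℝ) ^ (0.0648 : ℝ)) ∧
    (∀ S, sel (bt k) (Pj w A j) ((A : ℝ) ^ (0.0648 : ℝ)) S ≠ 0 →
      S ⊆ Pj w A j ∧ ∏ p ∈ S, (p : ℝ) ≤ (A : ℝ) ^ (0.1296 : ℝ)) ∧
    (∀ S, |sel (bt k) (Pj w A j) ((A : ℝ) ^ (0.0648 : ℝ)) S| ≤ 3 ^ S.card) ∧
    (∀ S, lam (bt k) (Pj w A j) ((A : ℝ) ^ (0.0648 : ℝ)) S ≠ 0 → S ⊆ Pj w A j) ∧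
    lam (bt k) (Pj w A j) ((A : ℝ) ^ (0.0648 : ℝ)) ∅ = 1 := by
  have hA1 : (1 : ℝ) ≤ A := by exact_mod_cast hA
  have hA0 : (0 : ℝ) < A := by linarith
  have h1 : ∀ p ∈ Pj w A j, 1 ≤ p := fun p hp => ((mem_Pj w A j p).1 hp).1.one_lt.le
  have h2 : ∀ p ∈ Pj w A j, 0 ≤ bt k p ∧ bt k p < 1 := by
    intro p hp
    have hm := (mem_Pj w A j p).1 hp
    refine ⟨bt_nonneg k p, (bt_le3 k p hm.1).trans_lt ?_⟩
    have h3 : (10 : ℝ) < p := by exact_mod_cast lt_of_le_of_lt hw hm.2.1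
    rw [div_lt_one (by linarith)]
    linarith
  have hD : 1 ≤ (A : ℝ) ^ (0.0648 : ℝ) := Real.one_le_rpow hA1 (by norm_num)
  have hG := Gs_pos (bt k) (Pj w A j) _ hD h2
  have hDD : ((A : ℝ) ^ (0.0648 : ℝ)) ^ 2 = (A : ℝ) ^ (0.1296 : ℝ) := by
    rw [← Real.rpow_natCast, ← Real.rpow_mul hA0.le]
    norm_num
  refine ⟨h1, h2, hD, hG, ?_, ?_, ?_, ?_⟩
  · intro S hS
    have h3 := sel_supp (bt k) (Pj w A j) _ hD h1 S hS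
    rw [hDD] at h3
    exact h3
  · exact sel_abs _ _ _ (lam_abs (bt k) (Pj w A j) _ hD h1 h2)
  · intro S hS
    exact (lam_supp _ _ _ S hS).1
  · exact lam_empty _ _ _ hD (by linarith)

theorem val_pf (k : ℤ) (w M A j : ℕ) (hw : 2 ≤ w) (f : Finset ℕ → ℝ) (hf : ∀ S, f S ≠ 0 → S ⊆ Pj w A j)
    (x : ℤ × ℤ × ℤ) (hx : x ∈ AJ k w M A j) :
    ∑ S ∈ (nn k x.1 x.2.1 x.2.2).natAbs.primeFactors.powerset, f S =
      Pool.Agent.H95.FL.val f (Dx k (Pj w A j) x) := by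
  classical
  unfold AJ at hx
  rw [mem_filter] at hx
  have hn := (nn_ne k w _ _ _ hx.2.1 2 Nat.prime_two hw).1
  unfold Pool.Agent.H95.FL.val
  symm
  apply sum_subset
  · intro S hS
    rw [mem_powerset] at hS ⊢
    intro p hp
    have h1 := (mem_Dx k _ x p).1 (hS hp)
    rw [Nat.mem_primeFactors]
    exact ⟨((mem_Pj w A j p).1 h1.1).1, Int.natCast_dvd.1 h1.2, Int.natAbs_ne_zero.2 hn⟩
  · intro S hS hS2
    by_contra h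
    apply hS2
    rw [mem_powerset] at hS ⊢
    intro p hp
    have h1 := (Nat.mem_primeFactors.1 (hS hp)).2.1
    exact (mem_Dx k _ x p).2 ⟨hf S h hp, Int.natCast_dvd.2 h1⟩

theorem upp (k : ℤ) (hk : k ≠ 0) (w : ℕ) (hw : 6 * k.natAbs + 10 ≤ w) (hw9 : 9 ^ 10 ≤ w) (M J : ℕ) :
    ∃ A0 : ℕ, ∀ A : ℕ, A0 ≤ A → ∀ j : ℕ, 1 ≤ j → j ≤ J → Nat.Coprime j (QQ k w) →
      ∑ x ∈ AJ k w M A j, ∑ S ∈ (nn k x.1 x.2.1 x.2.2).natAbs.primeFactors.powerset,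
        sel (bt k) (Pj w A j) ((A : ℝ) ^ (0.0648 : ℝ)) S ≤
      Mj k w A j / Gs (bt k) (Pj w A j) ((A : ℝ) ^ (0.0648 : ℝ)) + (A : ℝ) ^ (2.5 : ℝ) := by
  have ht : Filter.Tendsto (fun A : ℕ => (A : ℝ) ^ (0.015 : ℝ)) Filter.atTop Filter.atTop :=
    (tendsto_rpow_atTop (by norm_num)).comp tendsto_natCast_atTop_atTop
  obtain ⟨A2, hA2⟩ := Filter.eventually_atTop.1 (ht.eventually_ge_atTop (max (7 * (J : ℝ) ^ 2) ((QQ k w : ℝ) * (J : ℝ) ^ 2)))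
  refine ⟨max A2 1, ?_⟩
  intro A hA j hj hjJ hjQ
  have hAA2 : A2 ≤ A := (le_max_left _ _).trans hA
  have hAA3 : 1 ≤ A := (le_max_right _ _).trans hA
  have hA1r : (1 : ℝ) ≤ A := by exact_mod_cast hAA3
  have hA0 : (0 : ℝ) < A := by linarith
  have hgr := hA2 A hAA2
  have hg1 : 7 * (J : ℝ) ^ 2 ≤ (A : ℝ) ^ (0.015 : ℝ) := (le_max_left _ _).trans hgr
  have hg2 : (QQ k w : ℝ) * (J : ℝ) ^ 2 ≤ (A : ℝ) ^ (0.015 : ℝ) := (le_max_right _ _).trans hgr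
  have hjJ' : (j : ℝ) ≤ J := by exact_mod_cast hjJ
  have hj0 : (0 : ℝ) ≤ j := Nat.cast_nonneg _
  have hj2 : (j : ℝ) ^ 2 ≤ (J : ℝ) ^ 2 := pow_le_pow_left₀ hj0 hjJ' 2
  obtain ⟨h1, h2, hD, hG, hsupp, habs, -, -⟩ := sel_facts k w A j (by omega) hAA3
  have hY : 1 ≤ (A : ℝ) ^ (0.1296 : ℝ) := Real.one_le_rpow hA1r (by norm_num)
  have hYA : (QQ k w : ℝ) * (j : ℝ) ^ 2 * (A : ℝ) ^ (0.1296 : ℝ) ≤ A := by
    calc (QQ k w : ℝ) * (j : ℝ) ^ 2 * (A : ℝ) ^ (0.1296 : ℝ) ≤ (QQ k w : ℝ) * (J : ℝ) ^ 2 * (A : ℝ) ^ (0.1296 : ℝ) := by gcongr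
      _ ≤ (A : ℝ) ^ (0.015 : ℝ) * (A : ℝ) ^ (0.1296 : ℝ) := by gcongr
      _ = (A : ℝ) ^ (0.1446 : ℝ) := by rw [← Real.rpow_add hA0]; norm_num
      _ ≤ (A : ℝ) ^ (1 : ℝ) := Real.rpow_le_rpow_of_exponent_le hA1r (by norm_num)
      _ = A := Real.rpow_one _
  have hsum := aj_sum k hk w M A j 3 ((A : ℝ) ^ (0.1296 : ℝ)) hY (by norm_num) hw
    (by norm_num at hw9 ⊢; exact hw9) hj hjQ hYA
    (sel (bt k) (Pj w A j) ((A : ℝ) ^ (0.0648 : ℝ))) hsupp (fun S => by exact_mod_cast habs S)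
  rw [mean_sel (bt k) (Pj w A j) _ hD h1 h2 hG (val_sel (bt k) (Pj w A j) _)] at hsum
  have herr : 7 * (j : ℝ) ^ 2 * (A : ℝ) ^ 2 * ((A : ℝ) ^ (0.1296 : ℝ)) ^ (1.1 : ℝ) ≤ (A : ℝ) ^ (2.5 : ℝ) := by
    calc 7 * (j : ℝ) ^ 2 * (A : ℝ) ^ 2 * ((A : ℝ) ^ (0.1296 : ℝ)) ^ (1.1 : ℝ)
        ≤ 7 * (J : ℝ) ^ 2 * (A : ℝ) ^ 2 * ((A : ℝ) ^ (0.1296 : ℝ)) ^ (1.1 : ℝ) := by gcongr
      _ ≤ (A : ℝ) ^ (0.015 : ℝ) * (A : ℝ) ^ 2 * ((A : ℝ) ^ (0.1296 : ℝ)) ^ (1.1 : ℝ) := by gcongr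
      _ = (A : ℝ) ^ (2.15756 : ℝ) := by
          rw [← Real.rpow_mul hA0.le, ← Real.rpow_natCast (A : ℝ) 2, ← Real.rpow_add hA0, ← Real.rpow_add hA0]
          norm_num
      _ ≤ (A : ℝ) ^ (2.5 : ℝ) := Real.rpow_le_rpow_of_exponent_le hA1r (by norm_num)
  rw [sum_congr rfl fun x hx => val_pf k w M A j (by omega) _ (fun S hS => (hsupp S hS).1) x hx]
  have h3 := (abs_le.1 hsum).2
  have h4 : Mj k w A j * (1 / Gs (bt k) (Pj w A j) ((A : ℝ) ^ (0.0648 : ℝ))) =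
      Mj k w A j / Gs (bt k) (Pj w A j) ((A : ℝ) ^ (0.0648 : ℝ)) := by ring
  linarith

open Classical in
/-- chapter S -/
theorem sieve (k : ℤ) (hk : ∀ t : ℤ, t ^ 3 ≠ k) : ∃ w0 : ℕ, ∀ w : ℕ, w0 ≤ w → ∀ M J : ℕ, 1 ≤ M →
    ∃ A0 : ℕ, ∀ A : ℕ, A0 ≤ A → ∀ j : ℕ, 1 ≤ j → j ≤ J → Nat.Coprime j (QQ k w) →
    ∃ phi : Finset ℕ → ℝ,
      (∀ S, phi S ≠ 0 → (∀ p ∈ S, p.Prime ∧ w < p ∧ (p : ℝ) ≤ (A : ℝ) ^ (0.0144 : ℝ) ∧ ¬ p ∣ j) ∧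
        ∏ p ∈ S, (p : ℝ) ≤ (A : ℝ) ^ (0.1296 : ℝ)) ∧
      (∀ S, |phi S| ≤ 3 ^ S.card) ∧
      (∀ D : Finset ℕ, 0 ≤ ∑ S ∈ D.powerset, phi S) ∧
      (∀ D : Finset ℕ, (∀ p ∈ D, p.Prime → w < p → (p : ℝ) ≤ (A : ℝ) ^ (0.0144 : ℝ) → p ∣ j) →
        1 ≤ ∑ S ∈ D.powerset, phi S) ∧
      ∑ x ∈ AJ k w M A j, ∑ S ∈ (nn k x.1 x.2.1 x.2.2).natAbs.primeFactors.powerset, phi S ≤
        1.05 * (((AJ k w M A j).filter fun x =>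
          Rough ((A : ℝ) ^ (0.0144 : ℝ)) ((nn k x.1 x.2.1 x.2.2).natAbs / j)).card : ℝ) +
        (A : ℝ) ^ (2.99 : ℝ) := by
  have hk0 : k ≠ 0 := fun h => hk 0 (by rw [h]; norm_num)
  obtain ⟨w1, hlow⟩ := low k hk0
  refine ⟨max w1 (max (6 * k.natAbs + 10) (9 ^ 10)), ?_⟩
  intro w hw M J _
  have hw1 : w1 ≤ w := (le_max_left _ _).trans hw
  have hw2 : 6 * k.natAbs + 10 ≤ w := ((le_max_left _ _).trans (le_max_right _ _)).trans hw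
  have hw3 : 9 ^ 10 ≤ w := ((le_max_right _ _).trans (le_max_right _ _)).trans hw
  obtain ⟨A1, h1⟩ := hlow w hw1 M J
  obtain ⟨A2, h2⟩ := upp k hk0 w hw2 hw3 M J
  obtain ⟨A3, h3⟩ := rank_num k hk w hw2
  have ht : Filter.Tendsto (fun A : ℕ => (A : ℝ) ^ (0.04 : ℝ)) Filter.atTop Filter.atTop :=
    (tendsto_rpow_atTop (by norm_num)).comp tendsto_natCast_atTop_atTop
  obtain ⟨A4, h4⟩ := Filter.eventually_atTop.1 (ht.eventually_ge_atTop 3)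
  refine ⟨max (max A1 A2) (max (max A3 A4) 1), ?_⟩
  intro A hA j hj hjJ hjQ
  have hA1 : A1 ≤ A := ((le_max_left _ _).trans (le_max_left _ _)).trans hA
  have hA2 : A2 ≤ A := ((le_max_right _ _).trans (le_max_left _ _)).trans hA
  have hA3 : A3 ≤ A := (((le_max_left _ _).trans (le_max_left _ _)).trans (le_max_right _ _)).trans hA
  have hA4 : A4 ≤ A := (((le_max_right _ _).trans (le_max_left _ _)).trans (le_max_right _ _)).trans hA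
  have hA5 : 1 ≤ A := ((le_max_right _ _).trans (le_max_right _ _)).trans hA
  have hA1r : (1 : ℝ) ≤ A := by exact_mod_cast hA5
  have hA0 : (0 : ℝ) < A := by linarith
  obtain ⟨g1, g2, hD, hG, hsupp, habs, hls, hle⟩ := sel_facts k w A j (by omega) hA5
  refine ⟨sel (bt k) (Pj w A j) ((A : ℝ) ^ (0.0648 : ℝ)), ?_, habs, ?_, ?_, ?_⟩
  · intro S hS
    refine ⟨fun p hp => ?_, (hsupp S hS).2⟩
    have h := (mem_Pj w A j p).1 ((hsupp S hS).1 hp)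
    exact ⟨h.1, h.2.1, h.2.2.2, h.2.2.1⟩
  · intro D
    have h := val_sel (bt k) (Pj w A j) ((A : ℝ) ^ (0.0648 : ℝ)) D
    unfold Pool.Agent.H95.FL.val at h
    rw [h]
    positivity
  · intro D hDd
    have h := val_sel (bt k) (Pj w A j) ((A : ℝ) ^ (0.0648 : ℝ)) D
    unfold Pool.Agent.H95.FL.val at h
    rw [h]
    have h5 : ∑ S ∈ D.powerset, lam (bt k) (Pj w A j) ((A : ℝ) ^ (0.0648 : ℝ)) S = 1 := by
      rw [sum_eq_single ∅ _ (fun h6 => absurd (empty_mem_powerset D) h6), hle]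
      intro S hS hS0
      by_contra h6
      obtain ⟨p, hp⟩ := nonempty_iff_ne_empty.2 hS0
      have h7 := (mem_Pj w A j p).1 (hls S h6 hp)
      exact h7.2.2.1 (hDd p (mem_powerset.1 hS hp) h7.1 h7.2.1 h7.2.2.2)
    rw [h5]
    norm_num
  · have hu := h2 A hA2 j hj hjJ hjQ
    have hl := h1 A hA1 j hj hjJ hjQ
    have hr := h3 A hA3 j
    have h44 := h4 A hA4
    set G := Gs (bt k) (Pj w A j) ((A : ℝ) ^ (0.0648 : ℝ)) with hGd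
    set V := vv (bt k) (Pj w A j) with hV
    set N : ℝ := (((AJ k w M A j).filter fun x =>
          Rough ((A : ℝ) ^ (0.0144 : ℝ)) ((nn k x.1 x.2.1 x.2.2).natAbs / j)).card : ℝ) with hN
    have hMj : 0 ≤ Mj k w A j := by unfold Mj; positivity
    have hGp : 0 < G := by linarith
    have h6 : Mj k w A j / G ≤ 1.0445 * (Mj k w A j * V) := by
      rw [div_le_iff₀ hGp]
      have h7 : Mj k w A j * 0.9575 ≤ Mj k w A j * (G * V) := mul_le_mul_of_nonneg_left hr hMj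
      nlinarith
    have h8 : (A : ℝ) ^ (2.95 : ℝ) * 3 ≤ (A : ℝ) ^ (2.99 : ℝ) := by
      calc (A : ℝ) ^ (2.95 : ℝ) * 3 ≤ (A : ℝ) ^ (2.95 : ℝ) * (A : ℝ) ^ (0.04 : ℝ) := by
            apply mul_le_mul_of_nonneg_left h44 (by positivity)
        _ = (A : ℝ) ^ (2.99 : ℝ) := by rw [← Real.rpow_add hA0]; norm_num
    have h9 : (A : ℝ) ^ (2.5 : ℝ) ≤ (A : ℝ) ^ (2.95 : ℝ) :=
      Real.rpow_le_rpow_of_exponent_le hA1r (by norm_num)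
    have h10 : 0 ≤ (A : ℝ) ^ (2.95 : ℝ) := by positivity
    have h11 : 0 ≤ V := by
      rw [hV]
      unfold vv
      exact prod_nonneg fun p hp => by linarith [(g2 p hp).2]
    have h12 : 0 ≤ Mj k w A j * V := mul_nonneg hMj h11
    nlinarith

end H65.DR
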